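import Pool.Agent.Helper6K9.HC.Ev

/-!
# Coverings of complex algebraic hypersurfaces by balls
-/

set_option autoImplicit false

open MvPolynomial Filter Topology

namespace Pool.Agent.Helper6K9.HC

theorem deg_subst {σ τ : Type*} [Fintype σ] (f : σ → MvPolynomial τ ℂ) (hf : ∀ i, (f i).totalDegree ≤ 1)
    (Q : MvPolynomial σ ℂ) : (bind₁ f Q).totalDegree ≤ Q.totalDegree := by
  have h1 : bind₁ f Q = ∑ d ∈ Q.support, C (coeff d Q) * ∏ i, f i ^ d i := by
    show eval₂ _ _ _ = _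
    rw [eval₂_eq']
    rfl
  rw [h1]
  refine totalDegree_finsetSum_le fun d hd => ?_
  refine (totalDegree_mul _ _).trans ?_
  rw [totalDegree_C, zero_add]
  refine (totalDegree_finsetProd _ _).trans ?_
  refine le_trans (Finset.sum_le_sum fun i _ => (totalDegree_pow (f i) (d i)).trans
    (Nat.mul_le_mul_left _ (hf i))) ?_
  refine le_trans (le_of_eq ?_) (le_totalDegree hd)
  rw [Finsupp.sum_fintype _ _ (fun _ => rfl)]
  refine Finset.sum_congr rfl fun i _ => mul_one _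

/-- coverings of balls in the plane -/
theorem grid_one (R : ℝ) (hR : 0 ≤ R) (r : ℝ) (hr : 0 < r) (hr1 : r ≤ 1) : ∃ S : Finset ℂ,
    (S.card : ℝ) ≤ ((2 * R + 5) * r⁻¹) ^ 2 ∧ ∀ z : ℂ, ‖z‖ ≤ R → ∃ s ∈ S, dist z s ≤ r := by
  classical
  set N : ℕ := ⌈R / r⌉₊ + 1 with hN
  set I : Finset ℤ := Finset.Icc (-(N : ℤ)) N with hI
  refine ⟨(I ×ˢ I).image fun p => ((r * p.1 : ℝ) : ℂ) + ((r * p.2 : ℝ) : ℂ) * Complex.I, ?_, fun z hz => ?_⟩
  · have h1 : I.card = 2 * N + 1 := by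
      rw [hI, Int.card_Icc]
      omega
    have h2 : ((2 * N + 1 : ℕ) : ℝ) ≤ (2 * R + 5) * r⁻¹ := by
      have h3 : (⌈R / r⌉₊ : ℝ) < R * r⁻¹ + 1 := by
        rw [← div_eq_mul_inv]
        exact Nat.ceil_lt_add_one (by positivity)
      have h4 : 1 ≤ r⁻¹ := (one_le_inv₀ hr).2 hr1
      push_cast [hN]
      nlinarith
    calc ((((I ×ˢ I).image fun p : ℤ × ℤ => ((r * p.1 : ℝ) : ℂ) + ((r * p.2 : ℝ) : ℂ) * Complex.I).card : ℕ) : ℝ)
        ≤ (((I ×ˢ I).card : ℕ) : ℝ) := by exact_mod_cast Finset.card_image_le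
      _ = ((2 * N + 1 : ℕ) : ℝ) ^ 2 := by
          rw [Finset.card_product, h1]
          push_cast
          ring
      _ ≤ ((2 * R + 5) * r⁻¹) ^ 2 := pow_le_pow_left₀ (Nat.cast_nonneg _) h2 _
  · have key : ∀ x : ℝ, |x| ≤ R → ∃ a ∈ I, |x - r * a| ≤ r / 2 := by
      intro x hx
      refine ⟨round (x / r), ?_, ?_⟩
      · have h1 := abs_sub_round (x / r)
        have h2 : |x / r| ≤ R / r := by
          rw [abs_div, abs_of_pos hr]
          gcongr
        have h3 : (R / r : ℝ) ≤ ⌈R / r⌉₊ := Nat.le_ceil _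
        have h4 : |(round (x / r) : ℝ)| ≤ N := by
          have h5 : |(round (x / r) : ℝ)| ≤ |x / r| + |x / r - round (x / r)| := by
            have := abs_sub_abs_le_abs_sub (round (x / r) : ℝ) (x / r)
            rw [abs_sub_comm] at this
            linarith
          push_cast [hN]
          linarith
        have h6 : |round (x / r)| ≤ (N : ℤ) := by exact_mod_cast h4
        rw [hI, Finset.mem_Icc]
        exact abs_le.1 h6
      · have h1 := abs_sub_round (x / r)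
        calc |x - r * (round (x / r) : ℝ)| = r * |x / r - round (x / r)| := by
              rw [← abs_of_pos hr, ← abs_mul, abs_of_pos hr]
              congr 1
              field_simp
          _ ≤ r * (1 / 2) := mul_le_mul_of_nonneg_left h1 hr.le
          _ = r / 2 := by ring
    obtain ⟨a, ha, ha'⟩ := key z.re ((Complex.abs_re_le_norm z).trans hz)
    obtain ⟨b, hb, hb'⟩ := key z.im ((Complex.abs_im_le_norm z).trans hz)
    refine ⟨_, Finset.mem_image.2 ⟨(a, b), Finset.mem_product.2 ⟨ha, hb⟩, rfl⟩, ?_⟩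
    rw [dist_eq_norm]
    refine (Complex.norm_le_abs_re_add_abs_im _).trans ?_
    have e1 : (z - (((r * a : ℝ) : ℂ) + ((r * b : ℝ) : ℂ) * Complex.I)).re = z.re - r * a := by
      simp
    have e2 : (z - (((r * a : ℝ) : ℂ) + ((r * b : ℝ) : ℂ) * Complex.I)).im = z.im - r * b := by
      simp
    rw [e1, e2]
    linarith

/-- coverings of balls -/
theorem grid (m : ℕ) (R : ℝ) (hR : 0 ≤ R) (r : ℝ) (hr : 0 < r) (hr1 : r ≤ 1) : ∃ S : Finset (Fin m → ℂ),
    (S.card : ℝ) ≤ (2 * R + 5) ^ (2 * m) * r⁻¹ ^ (2 * m) ∧ ∀ z : Fin m → ℂ, ‖z‖ ≤ R → ∃ s ∈ S, dist z s ≤ r := by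
  classical
  obtain ⟨S, hS, h⟩ := grid_one R hR r hr hr1
  refine ⟨Fintype.piFinset fun _ => S, ?_, fun z hz => ?_⟩
  · rw [Fintype.card_piFinset_const]
    push_cast
    calc (S.card : ℝ) ^ m ≤ (((2 * R + 5) * r⁻¹) ^ 2) ^ m := pow_le_pow_left₀ (Nat.cast_nonneg _) hS _
      _ = _ := by rw [← pow_mul, mul_pow]
  · choose s hs using fun i => h (z i) ((norm_le_pi_norm z i).trans hz)
    refine ⟨s, Fintype.mem_piFinset.2 fun i => (hs i).1, ?_⟩
    rw [dist_pi_le_iff hr.le]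
    exact fun i => (hs i).2

/-- coverings of hypersurfaces -/
def HB (m : ℕ) : Prop := ∀ (D : ℕ) (R : ℝ), 0 ≤ R → ∃ A C : ℝ, 0 ≤ A ∧ 0 ≤ C ∧
  ∀ Q : MvPolynomial (Fin (m + 1)) ℂ, Q ≠ 0 → Q.totalDegree ≤ D → ∀ r : ℝ, 0 < r → r ≤ 1 →
    ∃ S : Finset (Fin (m + 1) → ℂ), (S.card : ℝ) ≤ C * r⁻¹ ^ (2 * m) ∧
      ∀ z, ‖z‖ ≤ R → eval z Q = 0 → ∃ s ∈ S, dist z s ≤ A * r

/-- the roots in the first variable -/
theorem first_roots {m D : ℕ} {Q : MvPolynomial (Fin (m + 1)) ℂ} (hD : Q.totalDegree ≤ D) (y : Fin m → ℂ)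
    (t₀ : ℂ) (h0 : eval (Fin.cons t₀ y) Q ≠ 0) : ∃ Z : Finset ℂ, Z.card ≤ D ∧
      ∀ t, eval (Fin.cons t y) Q = 0 → t ∈ Z := by
  classical
  obtain ⟨f, hf⟩ := exists_ev Q hD
  have hne : up f y ≠ 0 := by
    intro h
    apply h0
    rw [← hf, ← up_eval, h, Polynomial.eval_zero]
  refine ⟨(up f y).roots.toFinset, ?_, fun t ht => ?_⟩
  · exact (Multiset.toFinset_card_le _).trans ((Polynomial.card_roots' _).trans (up_deg f y))
  · rw [Multiset.mem_toFinset, Polynomial.mem_roots hne, Polynomial.IsRoot, up_eval, hf]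
    exact ht

theorem HB_zero : HB 0 := by
  classical
  intro D R _
  refine ⟨0, D, le_rfl, Nat.cast_nonneg _, fun Q hQ hD r _ _ => ?_⟩
  obtain ⟨z₀, hz₀⟩ : ∃ z, eval z Q ≠ 0 := by
    by_contra hcon
    push Not at hcon
    exact hQ (MvPolynomial.funext fun z => by rw [hcon z, map_zero])
  obtain ⟨Z, hZ, h⟩ := first_roots hD (Fin.tail z₀) (z₀ 0) (by rw [Fin.cons_self_tail]; exact hz₀)
  refine ⟨Z.image fun t => Fin.cons t (Fin.tail z₀), ?_, fun z _ hz => ?_⟩
  · rw [mul_zero, pow_zero, mul_one]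
    exact_mod_cast Finset.card_image_le.trans hZ
  · have e : Fin.cons (z 0) (Fin.tail z₀) = z := by
      have h1 : Fin.tail z₀ = Fin.tail z := Subsingleton.elim _ _
      rw [h1, Fin.cons_self_tail]
    refine ⟨z, Finset.mem_image.2 ⟨z 0, h _ (by rw [e]; exact hz), e⟩, ?_⟩
    rw [dist_self, zero_mul]

/-- the restriction to the hyperplane `z 0 = g + j z 1` -/
noncomputable def sl {m : ℕ} (Q : MvPolynomial (Fin (m + 2)) ℂ) (j : ℕ) (g : ℂ) : MvPolynomial (Fin (m + 1)) ℂ :=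
  bind₁ (Fin.cons (C g + C (j : ℂ) * X 0) X : Fin (m + 2) → MvPolynomial (Fin (m + 1)) ℂ) Q

theorem sl_eval {m : ℕ} (Q : MvPolynomial (Fin (m + 2)) ℂ) (j : ℕ) (g : ℂ) (y : Fin (m + 1) → ℂ) :
    eval y (sl Q j g) = eval (Fin.cons (g + (j : ℂ) * y 0) y) Q := by
  unfold sl
  rw [← coe_aeval_eq_eval, ← coe_aeval_eq_eval]
  simp only [RingHom.coe_coe]
  rw [aeval_bind₁]
  congr 2
  funext i
  refine Fin.cases ?_ (fun i => ?_) i
  · simp
  · simp

theorem sl_deg {m : ℕ} (Q : MvPolynomial (Fin (m + 2)) ℂ) (j : ℕ) (g : ℂ) :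
    (sl Q j g).totalDegree ≤ Q.totalDegree := by
  unfold sl
  refine deg_subst _ (fun i => ?_) Q
  refine Fin.cases ?_ (fun i => ?_) i
  · rw [Fin.cons_zero]
    refine (totalDegree_add _ _).trans (max_le ?_ ?_)
    · rw [totalDegree_C]
      exact Nat.zero_le _
    · refine (totalDegree_mul _ _).trans ?_
      rw [totalDegree_C, zero_add, totalDegree_X]
  · rw [Fin.cons_succ, totalDegree_X]

/-- a change of coordinates -/
noncomputable def af {n : ℕ} (Q : MvPolynomial (Fin n) ℂ) (z : Fin n → ℂ) (r : ℂ) : MvPolynomial (Fin n) ℂ :=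
  bind₁ (fun i => C (z i) + C r * X i) Q

theorem af_eval {n : ℕ} (Q : MvPolynomial (Fin n) ℂ) (z : Fin n → ℂ) (r : ℂ) (u : Fin n → ℂ) :
    eval u (af Q z r) = eval (z + r • u) Q := by
  unfold af
  rw [← coe_aeval_eq_eval, ← coe_aeval_eq_eval]
  simp only [RingHom.coe_coe]
  rw [aeval_bind₁]
  congr 2
  funext i
  simp

theorem af_deg {n : ℕ} (Q : MvPolynomial (Fin n) ℂ) (z : Fin n → ℂ) (r : ℂ) :
    (af Q z r).totalDegree ≤ Q.totalDegree := by
  unfold af
  refine deg_subst _ (fun i => ?_) Q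
  refine (totalDegree_add _ _).trans (max_le ?_ ?_)
  · rw [totalDegree_C]
    exact Nat.zero_le _
  · refine (totalDegree_mul _ _).trans ?_
    rw [totalDegree_C, zero_add, totalDegree_X]

theorem af_ne {n : ℕ} {Q : MvPolynomial (Fin n) ℂ} (hQ : Q ≠ 0) (z : Fin n → ℂ) {r : ℂ} (hr : r ≠ 0) :
    af Q z r ≠ 0 := by
  intro h0
  apply hQ
  refine MvPolynomial.funext fun w => ?_
  have h1 := af_eval Q z r (r⁻¹ • (w - z))
  rw [smul_smul, mul_inv_cancel₀ hr, one_smul, add_sub_cancel, h0, map_zero] at h1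
  rw [← h1, map_zero]

theorem HB_succ (m : ℕ) (ih : HB m) : HB (m + 1) := by
  classical
  intro D R hR
  obtain ⟨c₀, hc₀, hloc⟩ := local_all m D
  set c : ℝ := min c₀ 1 with hcdef
  have hc : 0 < c := lt_min hc₀ one_pos
  have hc1 : c ≤ 1 := min_le_right _ _
  obtain ⟨A', C', hA', hC', hIH⟩ := ih D (R + 1) (by linarith)
  set R₁ : ℝ := (D + 1) * R with hR₁
  have hR₁0 : 0 ≤ R₁ := by positivity
  set C₁ : ℝ := ((2 * R₁ + 5) * c⁻¹) ^ 2 with hC₁
  set C₂ : ℝ := (2 * (R + 1) + 5) ^ (2 * (m + 1)) with hC₂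
  refine ⟨1 + (D + 1) * (A' + 1), (D + 1) * (C₁ * C' + D * C₂), by positivity, by positivity,
    fun Q hQ hD r hr hr1 => ?_⟩
  -- the grid of values
  obtain ⟨G, hGc, hG⟩ := grid_one R₁ hR₁0 (c * r) (by positivity) (mul_le_one₀ hc1 hr.le hr1)
  obtain ⟨G₂, hG₂c, hG₂⟩ := grid (m + 1) (R + 1) (by linarith) r hr hr1
  -- the coverings of the slices
  have hex : ∀ (j : Fin (D + 1)) (g : ℂ), ∃ S : Finset (Fin (m + 1) → ℂ),
      (S.card : ℝ) ≤ (if sl Q j g = 0 then C₂ * r⁻¹ ^ (2 * (m + 1)) else C' * r⁻¹ ^ (2 * m)) ∧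
      ∀ y, ‖y‖ ≤ R + 1 → eval y (sl Q j g) = 0 → ∃ s ∈ S, dist y s ≤ (A' + 1) * r := by
    intro j g
    by_cases h0 : sl Q j g = 0
    · refine ⟨G₂, ?_, fun y hy _ => ?_⟩
      · rw [if_pos h0]
        exact hG₂c
      · obtain ⟨s, hs, hys⟩ := hG₂ y hy
        refine ⟨s, hs, hys.trans ?_⟩
        nlinarith
    · obtain ⟨S, hS, h⟩ := hIH (sl Q j g) h0 ((sl_deg Q j g).trans hD) r hr hr1
      refine ⟨S, ?_, fun y hy h1 => ?_⟩
      · rw [if_neg h0]
        exact hS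
      · obtain ⟨s, hs, hys⟩ := h y hy h1
        refine ⟨s, hs, hys.trans ?_⟩
        nlinarith
  choose S hS hScov using hex
  -- the exceptional slices
  obtain ⟨z₀, hz₀⟩ : ∃ z, eval z Q ≠ 0 := by
    by_contra hcon
    push Not at hcon
    exact hQ (MvPolynomial.funext fun z => by rw [hcon z, map_zero])
  obtain ⟨Z, hZ, hZr⟩ := first_roots hD (Fin.tail z₀) (z₀ 0) (by rw [Fin.cons_self_tail]; exact hz₀)
  have hbad : ∀ j : Fin (D + 1), (G.filter fun g => sl Q j g = 0).card ≤ D := by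
    intro j
    refine le_trans ?_ hZ
    refine Finset.card_le_card_of_injOn (fun g => g + (j : ℂ) * (Fin.tail z₀) 0) (fun g hg => ?_) ?_
    · rw [Finset.coe_filter, Set.mem_ofPred_eq] at hg
      apply hZr
      have h1 := sl_eval Q j g (Fin.tail z₀)
      rw [hg.2, map_zero] at h1
      exact h1.symm
    · intro g _ g' _ h
      exact add_right_cancel h
  have hrp : 0 ≤ r⁻¹ := by positivity
  refine ⟨Finset.univ.biUnion fun j : Fin (D + 1) => G.biUnion fun g =>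
    (S j g).image fun y => (Fin.cons (g + (j : ℂ) * y 0) y : Fin (m + 2) → ℂ), ?_, fun z hz hz0 => ?_⟩
  · have h1 : ∀ j : Fin (D + 1), (((G.biUnion fun g =>
        (S j g).image fun y => (Fin.cons (g + (j : ℂ) * y 0) y : Fin (m + 2) → ℂ)).card : ℕ) : ℝ) ≤
        (C₁ * C' + D * C₂) * r⁻¹ ^ (2 * (m + 1)) := by
      intro j
      calc (((G.biUnion fun g =>
            (S j g).image fun y => (Fin.cons (g + (j : ℂ) * y 0) y : Fin (m + 2) → ℂ)).card : ℕ) : ℝ)
          ≤ ((∑ g ∈ G, (S j g).card : ℕ) : ℝ) := by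
            exact_mod_cast (Finset.card_biUnion_le).trans (Finset.sum_le_sum fun g _ => Finset.card_image_le)
        _ ≤ ∑ g ∈ G, (if sl Q j g = 0 then C₂ * r⁻¹ ^ (2 * (m + 1)) else C' * r⁻¹ ^ (2 * m)) := by
            push_cast
            exact Finset.sum_le_sum fun g _ => hS j g
        _ = ((G.filter fun g => sl Q j g = 0).card : ℝ) * (C₂ * r⁻¹ ^ (2 * (m + 1))) +
            ((G.filter fun g => ¬ sl Q j g = 0).card : ℝ) * (C' * r⁻¹ ^ (2 * m)) := by
            rw [Finset.sum_ite, Finset.sum_const, Finset.sum_const, nsmul_eq_mul, nsmul_eq_mul]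
        _ ≤ (D : ℝ) * (C₂ * r⁻¹ ^ (2 * (m + 1))) +
            (((2 * R₁ + 5) * (c * r)⁻¹) ^ 2) * (C' * r⁻¹ ^ (2 * m)) := by
            refine add_le_add ?_ ?_
            · refine mul_le_mul_of_nonneg_right ?_ (by positivity)
              exact_mod_cast hbad j
            · refine mul_le_mul_of_nonneg_right ?_ (by positivity)
              refine le_trans ?_ hGc
              exact_mod_cast Finset.card_filter_le _ _
        _ = (C₁ * C' + D * C₂) * r⁻¹ ^ (2 * (m + 1)) := by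
            rw [hC₁, mul_inv, show 2 * (m + 1) = 2 * m + 2 by ring, pow_add]
            ring
    calc (((Finset.univ.biUnion fun j : Fin (D + 1) => G.biUnion fun g =>
          (S j g).image fun y => (Fin.cons (g + (j : ℂ) * y 0) y : Fin (m + 2) → ℂ)).card : ℕ) : ℝ)
        ≤ ((∑ j : Fin (D + 1), (G.biUnion fun g =>
          (S j g).image fun y => (Fin.cons (g + (j : ℂ) * y 0) y : Fin (m + 2) → ℂ)).card : ℕ) : ℝ) := by
          exact_mod_cast Finset.card_biUnion_le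
      _ ≤ ∑ j : Fin (D + 1), (C₁ * C' + D * C₂) * r⁻¹ ^ (2 * (m + 1)) := by
          push_cast
          exact Finset.sum_le_sum fun j _ => h1 j
      _ = (D + 1) * (C₁ * C' + D * C₂) * r⁻¹ ^ (2 * (m + 1)) := by
          rw [Finset.sum_const, Finset.card_univ, Fintype.card_fin, nsmul_eq_mul]
          push_cast
          ring
  · have hrc : (r : ℂ) ≠ 0 := by exact_mod_cast hr.ne'
    obtain ⟨j, hj⟩ := hloc (af Q z r) (af_ne hQ z hrc) ((af_deg Q z r).trans hD) (by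
      rw [af_eval, smul_zero, add_zero]
      exact hz0)
    have hjD : ((j : ℕ) : ℝ) ≤ D := by exact_mod_cast Nat.le_of_lt_succ j.2
    have hv : ‖z 0 - (j : ℂ) * z 1‖ ≤ R₁ := by
      calc ‖z 0 - (j : ℂ) * z 1‖ ≤ ‖z 0‖ + ‖(j : ℂ) * z 1‖ := norm_sub_le _ _
        _ ≤ R + D * R := by
            rw [norm_mul, Complex.norm_natCast]
            exact add_le_add ((norm_le_pi_norm z 0).trans hz)
              (mul_le_mul hjD ((norm_le_pi_norm z 1).trans hz) (norm_nonneg _) (Nat.cast_nonneg _))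
        _ = R₁ := by rw [hR₁]; ring
    obtain ⟨g, hgG, hg⟩ := hG _ hv
    obtain ⟨u, hu1, hu2, hu3⟩ := hj ((g - (z 0 - (j : ℂ) * z 1)) / r) (by
      rw [norm_div, Complex.norm_real, Real.norm_of_nonneg hr.le, div_le_iff₀ hr, ← dist_eq_norm, dist_comm]
      exact hg.trans (mul_le_mul_of_nonneg_right (min_le_left _ _) hr.le))
    rw [af_eval] at hu3
    set w : Fin (m + 2) → ℂ := z + (r : ℂ) • u with hw
    have hw0 : w 0 = g + (j : ℂ) * w 1 := by
      rw [hw]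
      simp only [Pi.add_apply, Pi.smul_apply, smul_eq_mul]
      rw [hu2]
      field_simp
      ring
    have hwe : w = Fin.cons (g + (j : ℂ) * (Fin.tail w) 0) (Fin.tail w) := by
      have h1 : g + (j : ℂ) * (Fin.tail w) 0 = w 0 := hw0.symm
      rw [h1, Fin.cons_self_tail]
    have hru : ‖(r : ℂ) • u‖ ≤ r := by
      rw [norm_smul, Complex.norm_real, Real.norm_of_nonneg hr.le]
      nlinarith [norm_nonneg u]
    have hwn : ‖Fin.tail w‖ ≤ R + 1 := by
      rw [pi_norm_le_iff_of_nonneg (by linarith)]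
      intro i
      refine (norm_le_pi_norm w i.succ).trans ?_
      refine (norm_add_le _ _).trans ?_
      linarith
    obtain ⟨s, hs, hds⟩ := hScov j g (Fin.tail w) hwn (by
      rw [sl_eval, ← hwe]
      exact hu3)
    refine ⟨Fin.cons (g + (j : ℂ) * s 0) s, ?_, ?_⟩
    · rw [Finset.mem_biUnion]
      refine ⟨j, Finset.mem_univ _, ?_⟩
      rw [Finset.mem_biUnion]
      exact ⟨g, hgG, Finset.mem_image.2 ⟨s, hs, rfl⟩⟩
    · have h1 : dist z w ≤ r := by
        rw [dist_comm, dist_eq_norm, hw, add_sub_cancel_left]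
        exact hru
      have h2 : dist w (Fin.cons (g + (j : ℂ) * s 0) s) ≤ (D + 1) * ((A' + 1) * r) := by
        have h3 : 0 ≤ (A' + 1) * r := by positivity
        rw [hwe, dist_pi_le_iff (by positivity)]
        intro i
        refine Fin.cases ?_ (fun i => ?_) i
        · rw [Fin.cons_zero, Fin.cons_zero, dist_add_left, dist_eq_norm, ← mul_sub, norm_mul,
            Complex.norm_natCast, ← dist_eq_norm]
          have h4 := (dist_le_pi_dist (Fin.tail w) s 0).trans hds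
          calc ((j : ℕ) : ℝ) * dist (Fin.tail w 0) (s 0) ≤ D * ((A' + 1) * r) :=
                mul_le_mul hjD h4 dist_nonneg (Nat.cast_nonneg _)
            _ ≤ (D + 1) * ((A' + 1) * r) := by nlinarith
        · rw [Fin.cons_succ, Fin.cons_succ]
          have h4 := (dist_le_pi_dist (Fin.tail w) s i).trans hds
          have h5 : (0 : ℝ) ≤ D := Nat.cast_nonneg _
          nlinarith
      calc dist z (Fin.cons (g + (j : ℂ) * s 0) s) ≤ dist z w + dist w (Fin.cons (g + (j : ℂ) * s 0) s) :=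
            dist_triangle _ _ _
        _ ≤ r + (D + 1) * ((A' + 1) * r) := add_le_add h1 h2
        _ = (1 + (D + 1) * (A' + 1)) * r := by ring

theorem HB_all (m : ℕ) : HB m := by
  induction m with
  | zero => exact HB_zero
  | succ m ih => exact HB_succ m ih

/-- **Coverings of complex hypersurfaces by balls.** The points of norm at most `R` of a hypersurface of degree at
most `D` of `ℂ ^ X` are covered by `C r ^ (-2 (|X| - 1))` balls of radius `r`. -/
theorem hyp_balls (X : Type) [Fintype X] [Nonempty X] (D : ℕ) (R : ℝ) (hR : 0 ≤ R) : ∃ A C : ℝ, 0 ≤ A ∧ 0 ≤ C ∧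
    ∀ Q : MvPolynomial X ℂ, Q ≠ 0 → Q.totalDegree ≤ D → ∀ r : ℝ, 0 < r → r ≤ 1 →
      ∃ S : Finset (X → ℂ), (S.card : ℝ) ≤ C * r⁻¹ ^ (2 * (Fintype.card X - 1)) ∧
        ∀ z, ‖z‖ ≤ R → eval z Q = 0 → ∃ s ∈ S, dist z s ≤ A * r := by
  classical
  obtain ⟨m, hm⟩ : ∃ m, Fintype.card X = m + 1 := ⟨Fintype.card X - 1, by
    have : 0 < Fintype.card X := Fintype.card_pos
    omega⟩
  have e : X ≃ Fin (m + 1) := Fintype.equivFinOfCardEq hm
  obtain ⟨A, C, hA, hC, h⟩ := HB_all m D R hR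
  refine ⟨A, C, hA, hC, fun Q hQ hD r hr hr1 => ?_⟩
  obtain ⟨S, hS, hcov⟩ := h (rename e Q) (fun h0 => hQ (rename_injective e e.injective (by rw [h0, map_zero])))
    ((totalDegree_rename_le e Q).trans hD) r hr hr1
  refine ⟨S.image fun s => s ∘ e, ?_, fun z hz hz0 => ?_⟩
  · rw [hm, Nat.add_sub_cancel]
    refine le_trans ?_ hS
    exact_mod_cast Finset.card_image_le
  · have h1 : ‖z ∘ e.symm‖ ≤ R := by
      rw [pi_norm_le_iff_of_nonneg hR]
      exact fun i => (norm_le_pi_norm z _).trans hz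
    obtain ⟨s, hs, hds⟩ := hcov (z ∘ e.symm) h1 (by
      rw [eval_rename]
      have : (z ∘ e.symm) ∘ e = z := by
        funext i
        simp
      rw [this]
      exact hz0)
    refine ⟨s ∘ e, Finset.mem_image.2 ⟨s, hs, rfl⟩, ?_⟩
    rw [dist_pi_le_iff (by positivity)]
    intro i
    have h2 := (dist_le_pi_dist (z ∘ e.symm) s (e i)).trans hds
    simpa using h2

/-- coverings of parts of strips in the plane -/
theorem strip_one (R B : ℝ) (hR : 0 ≤ R) (hB : 0 ≤ B) (r : ℝ) (hr : 0 < r) (hr1 : r ≤ 1) : ∃ S : Finset ℂ,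
    (S.card : ℝ) ≤ (2 * R + 5) * (2 * B + 5) * r⁻¹ ∧
      ∀ z : ℂ, ‖z‖ ≤ R → |z.im| ≤ B * r → ∃ s ∈ S, dist z s ≤ r := by
  classical
  have hint : ∀ x : ℝ, ∀ M : ℝ, |x| ≤ M * r →
      ∃ a ∈ Finset.Icc (-((⌈M⌉₊ + 1 : ℕ) : ℤ)) ((⌈M⌉₊ + 1 : ℕ) : ℤ), |x - r * (a : ℝ)| ≤ r / 2 := by
    intro x M hx
    refine ⟨round (x / r), ?_, ?_⟩
    · have h1 := abs_sub_round (x / r)
      have h2 : |x / r| ≤ M := by
        rw [abs_div, abs_of_pos hr, div_le_iff₀ hr]
        exact hx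
      have h3 : (M : ℝ) ≤ ⌈M⌉₊ := Nat.le_ceil _
      have h4 : |(round (x / r) : ℝ)| ≤ ((⌈M⌉₊ + 1 : ℕ) : ℝ) := by
        have h5 : |(round (x / r) : ℝ)| ≤ |x / r| + |x / r - round (x / r)| := by
          have := abs_sub_abs_le_abs_sub (round (x / r) : ℝ) (x / r)
          rw [abs_sub_comm] at this
          linarith
        push_cast
        linarith
      have h6 : |round (x / r)| ≤ ((⌈M⌉₊ + 1 : ℕ) : ℤ) := by exact_mod_cast h4
      rw [Finset.mem_Icc]
      exact abs_le.1 h6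
    · have h1 := abs_sub_round (x / r)
      calc |x - r * (round (x / r) : ℝ)| = r * |x / r - round (x / r)| := by
            rw [← abs_of_pos hr, ← abs_mul, abs_of_pos hr]
            congr 1
            field_simp
        _ ≤ r * (1 / 2) := mul_le_mul_of_nonneg_left h1 hr.le
        _ = r / 2 := by ring
  have hcard : ∀ M : ℝ, 0 ≤ M →
      ((Finset.Icc (-((⌈M⌉₊ + 1 : ℕ) : ℤ)) ((⌈M⌉₊ + 1 : ℕ) : ℤ)).card : ℝ) ≤ 2 * M + 5 := by
    intro M hM
    have h1 : (Finset.Icc (-((⌈M⌉₊ + 1 : ℕ) : ℤ)) ((⌈M⌉₊ + 1 : ℕ) : ℤ)).card = 2 * (⌈M⌉₊ + 1) + 1 := by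
      rw [Int.card_Icc]
      omega
    have h3 : (⌈M⌉₊ : ℝ) < M + 1 := Nat.ceil_lt_add_one hM
    rw [h1]
    push_cast
    linarith
  set I := Finset.Icc (-((⌈R * r⁻¹⌉₊ + 1 : ℕ) : ℤ)) ((⌈R * r⁻¹⌉₊ + 1 : ℕ) : ℤ) with hI
  set J := Finset.Icc (-((⌈B⌉₊ + 1 : ℕ) : ℤ)) ((⌈B⌉₊ + 1 : ℕ) : ℤ) with hJ
  refine ⟨(I ×ˢ J).image fun p => ((r * p.1 : ℝ) : ℂ) + ((r * p.2 : ℝ) : ℂ) * Complex.I, ?_, fun z hz hzi => ?_⟩
  · have h4 : 1 ≤ r⁻¹ := (one_le_inv₀ hr).2 hr1
    calc ((((I ×ˢ J).image fun p : ℤ × ℤ => ((r * p.1 : ℝ) : ℂ) + ((r * p.2 : ℝ) : ℂ) * Complex.I).card : ℕ) : ℝ)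
        ≤ (((I ×ˢ J).card : ℕ) : ℝ) := by exact_mod_cast Finset.card_image_le
      _ = (I.card : ℝ) * (J.card : ℝ) := by
          rw [Finset.card_product]
          push_cast
          ring
      _ ≤ (2 * (R * r⁻¹) + 5) * (2 * B + 5) :=
          mul_le_mul (hcard _ (by positivity)) (hcard _ hB) (Nat.cast_nonneg _) (by positivity)
      _ ≤ ((2 * R + 5) * r⁻¹) * (2 * B + 5) := by
          refine mul_le_mul_of_nonneg_right ?_ (by positivity)
          nlinarith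
      _ = (2 * R + 5) * (2 * B + 5) * r⁻¹ := by ring
  · obtain ⟨a, ha, ha'⟩ := hint z.re (R * r⁻¹) (by
      rw [mul_assoc, inv_mul_cancel₀ hr.ne', mul_one]
      exact (Complex.abs_re_le_norm z).trans hz)
    obtain ⟨b, hb, hb'⟩ := hint z.im B hzi
    refine ⟨_, Finset.mem_image.2 ⟨(a, b), Finset.mem_product.2 ⟨ha, hb⟩, rfl⟩, ?_⟩
    rw [dist_eq_norm]
    refine (Complex.norm_le_abs_re_add_abs_im _).trans ?_
    have e1 : (z - (((r * a : ℝ) : ℂ) + ((r * b : ℝ) : ℂ) * Complex.I)).re = z.re - r * a := by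
      simp
    have e2 : (z - (((r * a : ℝ) : ℂ) + ((r * b : ℝ) : ℂ) * Complex.I)).im = z.im - r * b := by
      simp
    rw [e1, e2]
    linarith

/-- coverings of neighbourhoods of the real points of balls -/
theorem strip (m : ℕ) (R B : ℝ) (hR : 0 ≤ R) (hB : 0 ≤ B) (r : ℝ) (hr : 0 < r) (hr1 : r ≤ 1) :
    ∃ S : Finset (Fin m → ℂ), (S.card : ℝ) ≤ ((2 * R + 5) * (2 * B + 5)) ^ m * r⁻¹ ^ m ∧
      ∀ z : Fin m → ℂ, ‖z‖ ≤ R → (∀ i, |(z i).im| ≤ B * r) → ∃ s ∈ S, dist z s ≤ r := by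
  classical
  obtain ⟨S, hS, h⟩ := strip_one R B hR hB r hr hr1
  refine ⟨Fintype.piFinset fun _ => S, ?_, fun z hz hzi => ?_⟩
  · rw [Fintype.card_piFinset_const]
    push_cast
    calc (S.card : ℝ) ^ m ≤ ((2 * R + 5) * (2 * B + 5) * r⁻¹) ^ m := pow_le_pow_left₀ (Nat.cast_nonneg _) hS _
      _ = _ := by rw [mul_pow]
  · choose s hs using fun i => h (z i) ((norm_le_pi_norm z i).trans hz) (hzi i)
    refine ⟨s, Fintype.mem_piFinset.2 fun i => (hs i).1, ?_⟩
    rw [dist_pi_le_iff hr.le]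
    exact fun i => (hs i).2

/-- coverings of the parts of hypersurfaces near the real points -/
def HS (m : ℕ) : Prop := ∀ (D : ℕ) (R B : ℝ), 0 ≤ R → 0 ≤ B → ∃ A C : ℝ, 0 ≤ A ∧ 0 ≤ C ∧
  ∀ Q : MvPolynomial (Fin (m + 1)) ℂ, Q ≠ 0 → Q.totalDegree ≤ D → ∀ r : ℝ, 0 < r → r ≤ 1 →
    ∃ S : Finset (Fin (m + 1) → ℂ), (S.card : ℝ) ≤ C * r⁻¹ ^ m ∧
      ∀ z, ‖z‖ ≤ R → (∀ i, |(z i).im| ≤ B * r) → eval z Q = 0 → ∃ s ∈ S, dist z s ≤ A * r

theorem HS_zero : HS 0 := by
  intro D R B hR _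
  obtain ⟨A, C, hA, hC, h⟩ := HB_zero D R hR
  refine ⟨A, C, hA, hC, fun Q hQ hD r hr hr1 => ?_⟩
  obtain ⟨S, hS, h1⟩ := h Q hQ hD r hr hr1
  exact ⟨S, hS, fun z hz _ h0 => h1 z hz h0⟩

theorem HS_succ (m : ℕ) (ih : HS m) : HS (m + 1) := by
  classical
  intro D R B hR hB
  obtain ⟨c₀, hc₀, hloc⟩ := local_all m D
  set c : ℝ := min c₀ 1 with hcdef
  have hc : 0 < c := lt_min hc₀ one_pos
  have hc1 : c ≤ 1 := min_le_right _ _
  obtain ⟨A', C', hA', hC', hIH⟩ := ih D (R + 1) (B + 1) (by linarith) (by linarith)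
  set R₁ : ℝ := (D + 1) * R with hR₁
  have hR₁0 : 0 ≤ R₁ := by positivity
  set B₁ : ℝ := (D + 1) * B / c with hB₁
  have hB₁0 : 0 ≤ B₁ := by positivity
  set C₁ : ℝ := (2 * R₁ + 5) * (2 * B₁ + 5) * c⁻¹ with hC₁
  set C₂ : ℝ := ((2 * (R + 1) + 5) * (2 * (B + 1) + 5)) ^ (m + 1) with hC₂
  refine ⟨1 + (D + 1) * (A' + 1), (D + 1) * (C₁ * C' + D * C₂), by positivity, by positivity,
    fun Q hQ hD r hr hr1 => ?_⟩
  -- the grid of values
  obtain ⟨G, hGc, hG⟩ := strip_one R₁ B₁ hR₁0 hB₁0 (c * r) (by positivity) (mul_le_one₀ hc1 hr.le hr1)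
  obtain ⟨G₂, hG₂c, hG₂⟩ := strip (m + 1) (R + 1) (B + 1) (by linarith) (by linarith) r hr hr1
  -- the coverings of the slices
  have hex : ∀ (j : Fin (D + 1)) (g : ℂ), ∃ S : Finset (Fin (m + 1) → ℂ),
      (S.card : ℝ) ≤ (if sl Q j g = 0 then C₂ * r⁻¹ ^ (m + 1) else C' * r⁻¹ ^ m) ∧
      ∀ y, ‖y‖ ≤ R + 1 → (∀ i, |(y i).im| ≤ (B + 1) * r) → eval y (sl Q j g) = 0 →
        ∃ s ∈ S, dist y s ≤ (A' + 1) * r := by
    intro j g
    by_cases h0 : sl Q j g = 0
    · refine ⟨G₂, ?_, fun y hy hyi _ => ?_⟩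
      · rw [if_pos h0]
        exact hG₂c
      · obtain ⟨s, hs, hys⟩ := hG₂ y hy hyi
        refine ⟨s, hs, hys.trans ?_⟩
        nlinarith
    · obtain ⟨S, hS, h⟩ := hIH (sl Q j g) h0 ((sl_deg Q j g).trans hD) r hr hr1
      refine ⟨S, ?_, fun y hy hyi h1 => ?_⟩
      · rw [if_neg h0]
        exact hS
      · obtain ⟨s, hs, hys⟩ := h y hy hyi h1
        refine ⟨s, hs, hys.trans ?_⟩
        nlinarith
  choose S hS hScov using hex
  -- the exceptional slices
  obtain ⟨z₀, hz₀⟩ : ∃ z, eval z Q ≠ 0 := by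
    by_contra hcon
    push Not at hcon
    exact hQ (MvPolynomial.funext fun z => by rw [hcon z, map_zero])
  obtain ⟨Z, hZ, hZr⟩ := first_roots hD (Fin.tail z₀) (z₀ 0) (by rw [Fin.cons_self_tail]; exact hz₀)
  have hbad : ∀ j : Fin (D + 1), (G.filter fun g => sl Q j g = 0).card ≤ D := by
    intro j
    refine le_trans ?_ hZ
    refine Finset.card_le_card_of_injOn (fun g => g + (j : ℂ) * (Fin.tail z₀) 0) (fun g hg => ?_) ?_
    · rw [Finset.coe_filter, Set.mem_ofPred_eq] at hg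
      apply hZr
      have h1 := sl_eval Q j g (Fin.tail z₀)
      rw [hg.2, map_zero] at h1
      exact h1.symm
    · intro g _ g' _ h
      exact add_right_cancel h
  have hrp : 0 ≤ r⁻¹ := by positivity
  refine ⟨Finset.univ.biUnion fun j : Fin (D + 1) => G.biUnion fun g =>
    (S j g).image fun y => (Fin.cons (g + (j : ℂ) * y 0) y : Fin (m + 2) → ℂ), ?_, fun z hz hzi hz0 => ?_⟩
  · have h1 : ∀ j : Fin (D + 1), (((G.biUnion fun g =>
        (S j g).image fun y => (Fin.cons (g + (j : ℂ) * y 0) y : Fin (m + 2) → ℂ)).card : ℕ) : ℝ) ≤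
        (C₁ * C' + D * C₂) * r⁻¹ ^ (m + 1) := by
      intro j
      calc (((G.biUnion fun g =>
            (S j g).image fun y => (Fin.cons (g + (j : ℂ) * y 0) y : Fin (m + 2) → ℂ)).card : ℕ) : ℝ)
          ≤ ((∑ g ∈ G, (S j g).card : ℕ) : ℝ) := by
            exact_mod_cast (Finset.card_biUnion_le).trans (Finset.sum_le_sum fun g _ => Finset.card_image_le)
        _ ≤ ∑ g ∈ G, (if sl Q j g = 0 then C₂ * r⁻¹ ^ (m + 1) else C' * r⁻¹ ^ m) := by
            push_cast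
            exact Finset.sum_le_sum fun g _ => hS j g
        _ = ((G.filter fun g => sl Q j g = 0).card : ℝ) * (C₂ * r⁻¹ ^ (m + 1)) +
            ((G.filter fun g => ¬ sl Q j g = 0).card : ℝ) * (C' * r⁻¹ ^ m) := by
            rw [Finset.sum_ite, Finset.sum_const, Finset.sum_const, nsmul_eq_mul, nsmul_eq_mul]
        _ ≤ (D : ℝ) * (C₂ * r⁻¹ ^ (m + 1)) +
            ((2 * R₁ + 5) * (2 * B₁ + 5) * (c * r)⁻¹) * (C' * r⁻¹ ^ m) := by
            refine add_le_add ?_ ?_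
            · refine mul_le_mul_of_nonneg_right ?_ (by positivity)
              exact_mod_cast hbad j
            · refine mul_le_mul_of_nonneg_right ?_ (by positivity)
              refine le_trans ?_ hGc
              exact_mod_cast Finset.card_filter_le _ _
        _ = (C₁ * C' + D * C₂) * r⁻¹ ^ (m + 1) := by
            rw [hC₁, mul_inv, pow_succ]
            ring
    calc (((Finset.univ.biUnion fun j : Fin (D + 1) => G.biUnion fun g =>
          (S j g).image fun y => (Fin.cons (g + (j : ℂ) * y 0) y : Fin (m + 2) → ℂ)).card : ℕ) : ℝ)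
        ≤ ((∑ j : Fin (D + 1), (G.biUnion fun g =>
          (S j g).image fun y => (Fin.cons (g + (j : ℂ) * y 0) y : Fin (m + 2) → ℂ)).card : ℕ) : ℝ) := by
          exact_mod_cast Finset.card_biUnion_le
      _ ≤ ∑ j : Fin (D + 1), (C₁ * C' + D * C₂) * r⁻¹ ^ (m + 1) := by
          push_cast
          exact Finset.sum_le_sum fun j _ => h1 j
      _ = (D + 1) * (C₁ * C' + D * C₂) * r⁻¹ ^ (m + 1) := by
          rw [Finset.sum_const, Finset.card_univ, Fintype.card_fin, nsmul_eq_mul]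
          push_cast
          ring
  · have hrc : (r : ℂ) ≠ 0 := by exact_mod_cast hr.ne'
    obtain ⟨j, hj⟩ := hloc (af Q z r) (af_ne hQ z hrc) ((af_deg Q z r).trans hD) (by
      rw [af_eval, smul_zero, add_zero]
      exact hz0)
    have hjD : ((j : ℕ) : ℝ) ≤ D := by exact_mod_cast Nat.le_of_lt_succ j.2
    have hv : ‖z 0 - (j : ℂ) * z 1‖ ≤ R₁ := by
      calc ‖z 0 - (j : ℂ) * z 1‖ ≤ ‖z 0‖ + ‖(j : ℂ) * z 1‖ := norm_sub_le _ _
        _ ≤ R + D * R := by
            rw [norm_mul, Complex.norm_natCast]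
            exact add_le_add ((norm_le_pi_norm z 0).trans hz)
              (mul_le_mul hjD ((norm_le_pi_norm z 1).trans hz) (norm_nonneg _) (Nat.cast_nonneg _))
        _ = R₁ := by rw [hR₁]; ring
    have hvi : |(z 0 - (j : ℂ) * z 1).im| ≤ B₁ * (c * r) := by
      have h1 : (z 0 - (j : ℂ) * z 1).im = (z 0).im - ((j : ℕ) : ℝ) * (z 1).im := by
        simp
      have h2 : |((j : ℕ) : ℝ) * (z 1).im| ≤ D * (B * r) := by
        rw [abs_mul, Nat.abs_cast]
        exact mul_le_mul hjD (hzi 1) (abs_nonneg _) (Nat.cast_nonneg _)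
      have h3 : B₁ * (c * r) = B * r + D * (B * r) := by
        rw [hB₁]
        field_simp
        ring
      rw [h1, h3]
      exact (abs_sub _ _).trans (add_le_add (hzi 0) h2)
    obtain ⟨g, hgG, hg⟩ := hG _ hv hvi
    obtain ⟨u, hu1, hu2, hu3⟩ := hj ((g - (z 0 - (j : ℂ) * z 1)) / r) (by
      rw [norm_div, Complex.norm_real, Real.norm_of_nonneg hr.le, div_le_iff₀ hr, ← dist_eq_norm, dist_comm]
      exact hg.trans (mul_le_mul_of_nonneg_right (min_le_left _ _) hr.le))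
    rw [af_eval] at hu3
    set w : Fin (m + 2) → ℂ := z + (r : ℂ) • u with hw
    have hw0 : w 0 = g + (j : ℂ) * w 1 := by
      rw [hw]
      simp only [Pi.add_apply, Pi.smul_apply, smul_eq_mul]
      rw [hu2]
      field_simp
      ring
    have hwe : w = Fin.cons (g + (j : ℂ) * (Fin.tail w) 0) (Fin.tail w) := by
      have h1 : g + (j : ℂ) * (Fin.tail w) 0 = w 0 := hw0.symm
      rw [h1, Fin.cons_self_tail]
    have hru : ‖(r : ℂ) • u‖ ≤ r := by
      rw [norm_smul, Complex.norm_real, Real.norm_of_nonneg hr.le]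
      nlinarith [norm_nonneg u]
    have hwn : ‖Fin.tail w‖ ≤ R + 1 := by
      rw [pi_norm_le_iff_of_nonneg (by linarith)]
      intro i
      refine (norm_le_pi_norm w i.succ).trans ?_
      refine (norm_add_le _ _).trans ?_
      linarith
    have hwi : ∀ i, |(Fin.tail w i).im| ≤ (B + 1) * r := by
      intro i
      have h1 : (Fin.tail w i).im = (z i.succ).im + (((r : ℂ) • u) i.succ).im := rfl
      have h2 : |(((r : ℂ) • u) i.succ).im| ≤ r :=
        (Complex.abs_im_le_norm _).trans ((norm_le_pi_norm _ i.succ).trans hru)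
      rw [h1]
      calc |(z i.succ).im + (((r : ℂ) • u) i.succ).im| ≤ |(z i.succ).im| + |(((r : ℂ) • u) i.succ).im| :=
            abs_add_le _ _
        _ ≤ B * r + r := add_le_add (hzi i.succ) h2
        _ = (B + 1) * r := by ring
    obtain ⟨s, hs, hds⟩ := hScov j g (Fin.tail w) hwn hwi (by
      rw [sl_eval, ← hwe]
      exact hu3)
    refine ⟨Fin.cons (g + (j : ℂ) * s 0) s, ?_, ?_⟩
    · rw [Finset.mem_biUnion]
      refine ⟨j, Finset.mem_univ _, ?_⟩
      rw [Finset.mem_biUnion]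
      exact ⟨g, hgG, Finset.mem_image.2 ⟨s, hs, rfl⟩⟩
    · have h1 : dist z w ≤ r := by
        rw [dist_comm, dist_eq_norm, hw, add_sub_cancel_left]
        exact hru
      have h2 : dist w (Fin.cons (g + (j : ℂ) * s 0) s) ≤ (D + 1) * ((A' + 1) * r) := by
        have h3 : 0 ≤ (A' + 1) * r := by positivity
        rw [hwe, dist_pi_le_iff (by positivity)]
        intro i
        refine Fin.cases ?_ (fun i => ?_) i
        · rw [Fin.cons_zero, Fin.cons_zero, dist_add_left, dist_eq_norm, ← mul_sub, norm_mul,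
            Complex.norm_natCast, ← dist_eq_norm]
          have h4 := (dist_le_pi_dist (Fin.tail w) s 0).trans hds
          calc ((j : ℕ) : ℝ) * dist (Fin.tail w 0) (s 0) ≤ D * ((A' + 1) * r) :=
                mul_le_mul hjD h4 dist_nonneg (Nat.cast_nonneg _)
            _ ≤ (D + 1) * ((A' + 1) * r) := by nlinarith
        · rw [Fin.cons_succ, Fin.cons_succ]
          have h4 := (dist_le_pi_dist (Fin.tail w) s i).trans hds
          have h5 : (0 : ℝ) ≤ D := Nat.cast_nonneg _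
          nlinarith
      calc dist z (Fin.cons (g + (j : ℂ) * s 0) s) ≤ dist z w + dist w (Fin.cons (g + (j : ℂ) * s 0) s) :=
            dist_triangle _ _ _
        _ ≤ r + (D + 1) * ((A' + 1) * r) := add_le_add h1 h2
        _ = (1 + (D + 1) * (A' + 1)) * r := by ring

theorem HS_all (m : ℕ) : HS m := by
  induction m with
  | zero => exact HS_zero
  | succ m ih => exact HS_succ m ih

/-- **Coverings of real parts of hypersurfaces by balls.** -/
theorem hyp_balls_real (X : Type) [Fintype X] [Nonempty X] (D : ℕ) (R B : ℝ) (hR : 0 ≤ R) (hB : 0 ≤ B) :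
    ∃ A C : ℝ, 0 ≤ A ∧ 0 ≤ C ∧
    ∀ Q : MvPolynomial X ℂ, Q ≠ 0 → Q.totalDegree ≤ D → ∀ r : ℝ, 0 < r → r ≤ 1 →
      ∃ S : Finset (X → ℂ), (S.card : ℝ) ≤ C * r⁻¹ ^ (Fintype.card X - 1) ∧
        ∀ z, ‖z‖ ≤ R → (∀ i, |(z i).im| ≤ B * r) → eval z Q = 0 → ∃ s ∈ S, dist z s ≤ A * r := by
  classical
  obtain ⟨m, hm⟩ : ∃ m, Fintype.card X = m + 1 := ⟨Fintype.card X - 1, by
    have : 0 < Fintype.card X := Fintype.card_pos
    omega⟩
  have e : X ≃ Fin (m + 1) := Fintype.equivFinOfCardEq hm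
  obtain ⟨A, C, hA, hC, h⟩ := HS_all m D R B hR hB
  refine ⟨A, C, hA, hC, fun Q hQ hD r hr hr1 => ?_⟩
  obtain ⟨S, hS, hcov⟩ := h (rename e Q) (fun h0 => hQ (rename_injective e e.injective (by rw [h0, map_zero])))
    ((totalDegree_rename_le e Q).trans hD) r hr hr1
  refine ⟨S.image fun s => s ∘ e, ?_, fun z hz hzi hz0 => ?_⟩
  · rw [hm, Nat.add_sub_cancel]
    refine le_trans ?_ hS
    exact_mod_cast Finset.card_image_le
  · have h1 : ‖z ∘ e.symm‖ ≤ R := by
      rw [pi_norm_le_iff_of_nonneg hR]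
      exact fun i => (norm_le_pi_norm z _).trans hz
    obtain ⟨s, hs, hds⟩ := hcov (z ∘ e.symm) h1 (fun i => hzi _) (by
      rw [eval_rename]
      have : (z ∘ e.symm) ∘ e = z := by
        funext i
        simp
      rw [this]
      exact hz0)
    refine ⟨s ∘ e, Finset.mem_image.2 ⟨s, hs, rfl⟩, ?_⟩
    rw [dist_pi_le_iff (by positivity)]
    intro i
    have h2 := (dist_le_pi_dist (z ∘ e.symm) s (e i)).trans hds
    simpa using h2

end Pool.Agent.Helper6K9.HC
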