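import Mathlib

/-!
# Polynomials of bounded degree which vanish at the origin have zeros on nearby hyperplanes
-/

set_option autoImplicit false

open MvPolynomial Filter Topology

namespace Pool.Agent.Helper6K9.HC

/-- evaluation of the polynomial with given coefficients -/
noncomputable def ev {n D : ℕ} (f : (Fin n → Fin (D + 1)) → ℂ) (z : Fin n → ℂ) : ℂ :=
  ∑ α, f α * ∏ i, z i ^ (α i : ℕ)

theorem ev_cont (n D : ℕ) :
    Continuous fun p : ((Fin n → Fin (D + 1)) → ℂ) × (Fin n → ℂ) => ev p.1 p.2 := by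
  unfold ev
  fun_prop

theorem ev_smul {n D : ℕ} (c : ℂ) (f : (Fin n → Fin (D + 1)) → ℂ) (z : Fin n → ℂ) :
    ev (c • f) z = c * ev f z := by
  unfold ev
  rw [Finset.mul_sum]
  refine Finset.sum_congr rfl fun α _ => ?_
  rw [Pi.smul_apply, smul_eq_mul, mul_assoc]

/-- the exponent vector -/
noncomputable def fi {n D : ℕ} (α : Fin n → Fin (D + 1)) : Fin n →₀ ℕ :=
  Finsupp.equivFunOnFinite.symm fun i => (α i : ℕ)

theorem fi_apply {n D : ℕ} (α : Fin n → Fin (D + 1)) (i : Fin n) : fi α i = (α i : ℕ) := rfl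

theorem fi_inj {n D : ℕ} : Function.Injective (fi : (Fin n → Fin (D + 1)) → Fin n →₀ ℕ) := by
  intro α β h
  funext i
  apply Fin.ext
  rw [← fi_apply, ← fi_apply, h]

/-- the polynomial with given coefficients -/
noncomputable def pol {n D : ℕ} (f : (Fin n → Fin (D + 1)) → ℂ) : MvPolynomial (Fin n) ℂ :=
  ∑ α, monomial (fi α) (f α)

theorem pol_eval {n D : ℕ} (f : (Fin n → Fin (D + 1)) → ℂ) (z : Fin n → ℂ) :
    eval z (pol f) = ev f z := by
  unfold pol ev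
  rw [map_sum]
  refine Finset.sum_congr rfl fun α _ => ?_
  rw [eval_monomial, Finsupp.prod_fintype _ _ (fun i => pow_zero _)]
  rfl

theorem pol_coeff {n D : ℕ} (f : (Fin n → Fin (D + 1)) → ℂ) (α : Fin n → Fin (D + 1)) :
    coeff (fi α) (pol f) = f α := by
  classical
  unfold pol
  rw [coeff_sum, Finset.sum_eq_single α]
  · rw [coeff_monomial, if_pos rfl]
  · intro β _ hβ
    rw [coeff_monomial, if_neg]
    exact fun h => hβ (fi_inj h)
  · intro h
    exact absurd (Finset.mem_univ _) h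

theorem exists_ev {n D : ℕ} (Q : MvPolynomial (Fin n) ℂ) (h : Q.totalDegree ≤ D) :
    ∃ f : (Fin n → Fin (D + 1)) → ℂ, ∀ z, ev f z = eval z Q := by
  classical
  refine ⟨fun α => coeff (fi α) Q, fun z => ?_⟩
  have h1 : pol (fun α : Fin n → Fin (D + 1) => coeff (fi α) Q) = Q := by
    ext s
    by_cases hs : ∀ i, s i ≤ D
    · have e : s = fi (fun i => (⟨s i, Nat.lt_succ_of_le (hs i)⟩ : Fin (D + 1))) := by
        ext i
        rfl
      rw [e, pol_coeff]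
    · have h2 : coeff s Q = 0 := by
        by_contra hne
        apply hs
        intro i
        have h3 := le_totalDegree (mem_support_iff.2 hne)
        have h4 : s i ≤ s.sum fun _ e => e := by
          rw [Finsupp.sum_fintype _ _ (fun _ => rfl)]
          exact Finset.single_le_sum (f := fun i => s i) (fun _ _ => Nat.zero_le _) (Finset.mem_univ i)
        omega
      rw [h2]
      unfold pol
      rw [coeff_sum]
      refine Finset.sum_eq_zero fun β _ => ?_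
      rw [coeff_monomial, if_neg]
      intro h3
      apply hs
      intro i
      rw [← h3, fi_apply]
      exact Nat.le_of_lt_succ (β i).2
  rw [← pol_eval, h1]

theorem ev_ne {n D : ℕ} {f : (Fin n → Fin (D + 1)) → ℂ} (hf : f ≠ 0) : ∃ z, ev f z ≠ 0 := by
  by_contra hcon
  push Not at hcon
  apply hf
  have h1 : pol f = 0 := by
    refine MvPolynomial.funext fun z => ?_
    rw [pol_eval, hcon z, map_zero]
  funext α
  rw [← pol_coeff f, h1]
  rfl

/-- the polynomial in the first variable -/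
noncomputable def up {m D : ℕ} (f : (Fin (m + 1) → Fin (D + 1)) → ℂ) (y : Fin m → ℂ) : Polynomial ℂ :=
  ∑ α, Polynomial.C (f α * ∏ i : Fin m, y i ^ (α i.succ : ℕ)) * Polynomial.X ^ (α 0 : ℕ)

theorem up_eval {m D : ℕ} (f : (Fin (m + 1) → Fin (D + 1)) → ℂ) (y : Fin m → ℂ) (t : ℂ) :
    (up f y).eval t = ev f (Fin.cons t y) := by
  unfold up ev
  rw [Polynomial.eval_finsetSum]
  refine Finset.sum_congr rfl fun α _ => ?_
  rw [Polynomial.eval_mul, Polynomial.eval_C, Polynomial.eval_pow, Polynomial.eval_X, Fin.prod_univ_succ,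
    Fin.cons_zero]
  simp only [Fin.cons_succ]
  ring

theorem up_deg {m D : ℕ} (f : (Fin (m + 1) → Fin (D + 1)) → ℂ) (y : Fin m → ℂ) :
    (up f y).natDegree ≤ D := by
  unfold up
  refine Polynomial.natDegree_sum_le_of_forall_le _ _ fun α _ => ?_
  refine (Polynomial.natDegree_C_mul_X_pow_le _ _).trans ?_
  exact Nat.le_of_lt_succ (α 0).2

/-- one of the hyperplanes `z 0 = j z 1` is not contained in the zero set -/
theorem slice_ne {m D : ℕ} {f : (Fin (m + 2) → Fin (D + 1)) → ℂ} (hf : f ≠ 0) :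
    ∃ (j : Fin (D + 1)) (v : Fin (m + 2) → ℂ), v 0 = (j : ℂ) * v 1 ∧ ev f v ≠ 0 := by
  by_contra hcon
  push Not at hcon
  apply hf
  have h0 : ∀ y : Fin (m + 1) → ℂ, y 0 ≠ 0 → ∀ t, ev f (Fin.cons t y) = 0 := by
    intro y hy t
    have h1 : up f y = 0 := by
      refine Polynomial.eq_zero_of_natDegree_lt_card_of_eval_eq_zero (up f y)
        (f := fun j : Fin (D + 1) => (j : ℂ) * y 0) ?_ ?_ ?_
      · intro i j hij
        have h2 := mul_right_cancel₀ hy hij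
        apply Fin.ext
        exact_mod_cast h2
      · intro j
        rw [up_eval]
        refine hcon j _ ?_
        rw [Fin.cons_zero, show (1 : Fin (m + 2)) = Fin.succ 0 from rfl, Fin.cons_succ]
      · rw [Fintype.card_fin]
        exact Nat.lt_succ_of_le (up_deg f y)
    rw [← up_eval, h1, Polynomial.eval_zero]
  have h1 : pol f * X 1 = 0 := by
    refine MvPolynomial.funext fun z => ?_
    rw [map_mul, pol_eval, eval_X, map_zero]
    by_cases hz : z 1 = 0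
    · rw [hz, mul_zero]
    · have h2 := h0 (Fin.tail z) hz (z 0)
      rw [Fin.cons_self_tail] at h2
      rw [h2, zero_mul]
  have h2 : pol f = 0 := by
    rcases mul_eq_zero.1 h1 with h | h
    · exact h
    · exact absurd h (X_ne_zero 1)
  funext α
  rw [← pol_coeff f, h2]
  rfl

/-- existence of zeros -/
theorem root {g : ℂ → ℂ} {ρ μ : ℝ} (hρ : 0 < ρ) (hg : Differentiable ℂ g)
    (h0 : ‖g 0‖ < μ) (h1 : ∀ s, ‖s‖ = ρ → μ ≤ ‖g s‖) : ∃ s, ‖s‖ ≤ ρ ∧ g s = 0 := by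
  by_contra hcon
  push Not at hcon
  have hμ : 0 < μ := (norm_nonneg _).trans_lt h0
  have h2 : ‖(g 0)⁻¹‖ ≤ μ⁻¹ := by
    refine Complex.norm_le_of_forall_mem_frontier_norm_le (f := fun s => (g s)⁻¹)
      (U := Metric.ball (0 : ℂ) ρ) Metric.isBounded_ball ?_ ?_ ?_
    · refine DifferentiableOn.diffContOnCl ?_
      rw [closure_ball _ hρ.ne']
      intro s hs
      refine (hg.differentiableAt.inv (hcon s ?_)).differentiableWithinAt
      rwa [mem_closedBall_zero_iff] at hs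
    · intro s hs
      rw [frontier_ball _ hρ.ne', mem_sphere_zero_iff_norm] at hs
      rw [norm_inv]
      exact inv_anti₀ hμ (h1 s hs)
    · rw [closure_ball _ hρ.ne']
      exact Metric.mem_closedBall_self hρ.le
  rw [norm_inv] at h2
  have h3 : 0 < ‖g 0‖ := norm_pos_iff.2 (hcon 0 (by rw [norm_zero]; exact hρ.le))
  have h4 := (inv_le_inv₀ h3 hμ).1 h2
  linarith

/-- the property of the local lemma -/
def Zr {m D : ℕ} (c : ℝ) (f : (Fin (m + 2) → Fin (D + 1)) → ℂ) : Prop :=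
  ev f 0 = 0 → ∃ j : Fin (D + 1), ∀ w : ℂ, ‖w‖ ≤ c →
    ∃ u : Fin (m + 2) → ℂ, ‖u‖ ≤ 1 ∧ u 0 = w + (j : ℂ) * u 1 ∧ ev f u = 0

theorem Zr.mono {m D : ℕ} {c c' : ℝ} {f : (Fin (m + 2) → Fin (D + 1)) → ℂ} (h : Zr c f) (hc : c' ≤ c) :
    Zr c' f := fun h0 => by
  obtain ⟨j, hj⟩ := h h0
  exact ⟨j, fun w hw => hj w (hw.trans hc)⟩

theorem local_one {m D : ℕ} {f₀ : (Fin (m + 2) → Fin (D + 1)) → ℂ} (hf₀ : f₀ ≠ 0) :
    ∃ c : ℝ, 0 < c ∧ ∀ᶠ f in 𝓝 f₀, Zr c f := by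
  obtain ⟨j, v, hv, hne⟩ := slice_ne hf₀
  -- the restriction to the line
  set q : Polynomial ℂ := ∑ α, Polynomial.C (f₀ α * ∏ i, v i ^ (α i : ℕ)) *
    Polynomial.X ^ (∑ i, (α i : ℕ)) with hq
  have hqe : ∀ s : ℂ, q.eval s = ev f₀ (s • v) := by
    intro s
    rw [hq, Polynomial.eval_finsetSum]
    unfold ev
    refine Finset.sum_congr rfl fun α _ => ?_
    rw [Polynomial.eval_mul, Polynomial.eval_C, Polynomial.eval_pow, Polynomial.eval_X]
    simp only [Pi.smul_apply, smul_eq_mul, mul_pow, Finset.prod_mul_distrib, Finset.prod_pow_eq_pow_sum]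
    ring
  have hq0 : q ≠ 0 := by
    intro h0
    apply hne
    rw [← one_smul ℂ v, ← hqe, h0, Polynomial.eval_zero]
  -- the radius
  set ρ₀ : ℝ := 1 / (2 * (‖v‖ + 1)) with hρ₀
  have hρ₀p : 0 < ρ₀ := by positivity
  obtain ⟨ρ, hρm, hρn⟩ : ∃ ρ ∈ Set.Ioo 0 ρ₀, ρ ∉ (q.roots.toFinset.image fun s => ‖s‖ : Finset ℝ) :=
    (Set.Ioo_infinite hρ₀p).exists_notMem_finset _
  have hρ : 0 < ρ := hρm.1
  have hqρ : ∀ s : ℂ, ‖s‖ = ρ → ev f₀ (s • v) ≠ 0 := by
    intro s hs h0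
    apply hρn
    rw [Finset.mem_image]
    refine ⟨s, ?_, hs⟩
    rw [Multiset.mem_toFinset, Polynomial.mem_roots hq0, Polynomial.IsRoot, hqe]
    exact h0
  -- the point of the family
  set pt : ℂ → ℂ → Fin (m + 2) → ℂ := fun w s => s • v + w • (Pi.single 0 1 : Fin (m + 2) → ℂ) with hpt
  have hptc : Continuous fun p : ℂ × ℂ => pt p.1 p.2 := by
    rw [hpt]
    fun_prop
  -- the minimum on the circle
  have hcomp : IsCompact (Metric.sphere (0 : ℂ) ρ) := isCompact_sphere _ _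
  obtain ⟨s₀, hs₀, hmin⟩ := hcomp.exists_isMinOn
    (⟨(ρ : ℂ), by rw [mem_sphere_zero_iff_norm, Complex.norm_real, Real.norm_of_nonneg hρ.le]⟩)
    (f := fun s => ‖ev f₀ (s • v)‖) (by
      have h1 : Continuous fun s : ℂ => ev f₀ (s • v) :=
        (ev_cont (m + 2) D).comp (by fun_prop : Continuous fun s : ℂ => (f₀, s • v))
      exact h1.norm.continuousOn)
  set μ : ℝ := ‖ev f₀ (s₀ • v)‖ with hμ
  have hμp : 0 < μ := norm_pos_iff.2 (hqρ s₀ (mem_sphere_zero_iff_norm.1 hs₀))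
  have hΦ : Continuous fun p : (((Fin (m + 2) → Fin (D + 1)) → ℂ) × ℂ) × ℂ => ev p.1.1 (pt p.1.2 p.2) := by
    have h1 : Continuous fun p : (((Fin (m + 2) → Fin (D + 1)) → ℂ) × ℂ) × ℂ => (p.1.1, pt p.1.2 p.2) :=
      (continuous_fst.comp continuous_fst).prodMk
        (hptc.comp ((continuous_snd.comp continuous_fst).prodMk continuous_snd))
    exact (ev_cont (m + 2) D).comp h1
  have hpt0 : ∀ s, pt 0 s = s • v := by
    intro s
    rw [hpt]
    simp
  have h1 : ∀ᶠ p : ((Fin (m + 2) → Fin (D + 1)) → ℂ) × ℂ in 𝓝 (f₀, 0),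
      ∀ s ∈ Metric.sphere (0 : ℂ) ρ, μ / 2 < ‖ev p.1 (pt p.2 s)‖ := by
    refine hcomp.eventually_forall_of_forall_eventually fun s hs => ?_
    have h2 : μ / 2 < ‖ev f₀ (pt 0 s)‖ := by
      rw [hpt0]
      have := hmin hs
      have h3 : μ ≤ ‖ev f₀ (s • v)‖ := this
      linarith
    have h3 := (hΦ.norm.continuousAt (x := ((f₀, (0 : ℂ)), s))).eventually (lt_mem_nhds h2)
    exact h3
  have h2 : ∀ᶠ p : ((Fin (m + 2) → Fin (D + 1)) → ℂ) × ℂ in 𝓝 (f₀, 0), ev p.1 0 = 0 →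
      ‖ev p.1 (pt p.2 0)‖ < μ / 2 := by
    have h3 : Continuous fun p : ((Fin (m + 2) → Fin (D + 1)) → ℂ) × ℂ => ev p.1 (pt p.2 0) - ev p.1 0 := by
      have h4 : Continuous fun p : ((Fin (m + 2) → Fin (D + 1)) → ℂ) × ℂ => ev p.1 (pt p.2 0) :=
        hΦ.comp (by fun_prop : Continuous fun p : ((Fin (m + 2) → Fin (D + 1)) → ℂ) × ℂ => (p, (0 : ℂ)))
      have h5 : Continuous fun p : ((Fin (m + 2) → Fin (D + 1)) → ℂ) × ℂ => ev p.1 0 :=
        (ev_cont (m + 2) D).comp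
          (by fun_prop : Continuous fun p : ((Fin (m + 2) → Fin (D + 1)) → ℂ) × ℂ => (p.1, (0 : Fin (m + 2) → ℂ)))
      exact h4.sub h5
    have h4 : ‖ev f₀ (pt 0 0) - ev f₀ 0‖ < μ / 2 := by
      rw [hpt0, zero_smul, sub_self, norm_zero]
      linarith
    have h5 := (h3.norm.continuousAt (x := (f₀, (0 : ℂ)))).eventually (gt_mem_nhds h4)
    filter_upwards [h5] with p hp hp0
    rw [hp0, sub_zero] at hp
    exact hp
  obtain ⟨N, hN, V, hV, hNV⟩ := Filter.eventually_prod_iff.1 ((nhds_prod_eq (x := f₀) (y := (0 : ℂ))) ▸ (h1.and h2))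
  obtain ⟨ε, hε, hεV⟩ := Metric.eventually_nhds_iff.1 hV
  refine ⟨min (ε / 2) (1 / 2), by positivity, ?_⟩
  filter_upwards [hN] with f hf hf0
  refine ⟨j, fun w hw => ?_⟩
  have hwV : V w := hεV (by
    rw [dist_zero_right]
    have := hw.trans (min_le_left _ _)
    linarith)
  obtain ⟨h3, h4⟩ := hNV hf hwV
  have h5 : Differentiable ℂ fun s => ev f (pt w s) := by
    unfold ev
    rw [hpt]
    fun_prop
  obtain ⟨s, hs, hs0⟩ := root hρ h5 (h4 hf0) (fun s hs => (h3 s (mem_sphere_zero_iff_norm.2 hs)).le)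
  refine ⟨pt w s, ?_, ?_, hs0⟩
  · have e1 : ‖w • (Pi.single 0 1 : Fin (m + 2) → ℂ)‖ ≤ 1 / 2 := by
      rw [norm_smul, Pi.norm_single, norm_one, mul_one]
      exact hw.trans (min_le_right _ _)
    have e2 : ‖s • v‖ ≤ 1 / 2 := by
      rw [norm_smul]
      calc ‖s‖ * ‖v‖ ≤ ρ₀ * (‖v‖ + 1) :=
            mul_le_mul (hs.trans hρm.2.le) (by linarith) (norm_nonneg _) hρ₀p.le
        _ = 1 / 2 := by
            rw [hρ₀]
            have : 0 < ‖v‖ + 1 := by positivity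
            field_simp
    calc ‖pt w s‖ ≤ ‖s • v‖ + ‖w • (Pi.single 0 1 : Fin (m + 2) → ℂ)‖ := norm_add_le _ _
      _ ≤ 1 := by linarith
  · rw [hpt]
    simp only [Pi.add_apply, Pi.smul_apply, smul_eq_mul, Pi.single_eq_same, mul_one, hv]
    have e3 : (Pi.single 0 1 : Fin (m + 2) → ℂ) 1 = 0 := Pi.single_eq_of_ne (by simp) _
    rw [e3]
    ring

/-- **Zeros on nearby hyperplanes.** -/
theorem local_all (m D : ℕ) : ∃ c : ℝ, 0 < c ∧ ∀ Q : MvPolynomial (Fin (m + 2)) ℂ, Q ≠ 0 →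
    Q.totalDegree ≤ D → eval 0 Q = 0 → ∃ j : Fin (D + 1), ∀ w : ℂ, ‖w‖ ≤ c →
      ∃ u : Fin (m + 2) → ℂ, ‖u‖ ≤ 1 ∧ u 0 = w + (j : ℂ) * u 1 ∧ eval u Q = 0 := by
  have hcomp : IsCompact (Metric.sphere (0 : (Fin (m + 2) → Fin (D + 1)) → ℂ) 1) := isCompact_sphere _ _
  obtain ⟨c, hc, h⟩ : ∃ c : ℝ, 0 < c ∧ ∀ f ∈ Metric.sphere (0 : (Fin (m + 2) → Fin (D + 1)) → ℂ) 1, Zr c f := by
    refine hcomp.induction_on (p := fun S => ∃ c : ℝ, 0 < c ∧ ∀ f ∈ S, Zr c f)
      ⟨1, one_pos, fun f hf => absurd hf (Set.notMem_empty _)⟩ ?_ ?_ ?_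
    · rintro S T hST ⟨c, hc, h⟩
      exact ⟨c, hc, fun f hf => h f (hST hf)⟩
    · rintro S T ⟨c, hc, h⟩ ⟨c', hc', h'⟩
      refine ⟨min c c', lt_min hc hc', ?_⟩
      rintro f (hf | hf)
      · exact (h f hf).mono (min_le_left _ _)
      · exact (h' f hf).mono (min_le_right _ _)
    · intro f₀ hf₀
      have hne : f₀ ≠ 0 := by
        intro h0
        rw [h0, mem_sphere_zero_iff_norm, norm_zero] at hf₀
        norm_num at hf₀
      obtain ⟨c, hc, h⟩ := local_one hne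
      exact ⟨{f | Zr c f}, mem_nhdsWithin_of_mem_nhds h, c, hc, fun f hf => hf⟩
  refine ⟨c, hc, fun Q hQ hD h0 => ?_⟩
  obtain ⟨f, hf⟩ := exists_ev Q hD
  have hf0 : f ≠ 0 := by
    rintro rfl
    apply hQ
    refine MvPolynomial.funext fun z => ?_
    rw [← hf z, map_zero]
    unfold ev
    simp
  have hn : 0 < ‖f‖ := norm_pos_iff.2 hf0
  have hs : ((‖f‖ : ℂ))⁻¹ • f ∈ Metric.sphere (0 : (Fin (m + 2) → Fin (D + 1)) → ℂ) 1 := by
    rw [mem_sphere_zero_iff_norm, norm_smul, norm_inv, Complex.norm_real, norm_norm, inv_mul_cancel₀ hn.ne']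
  have hev : ∀ z, ev (((‖f‖ : ℂ))⁻¹ • f) z = 0 ↔ eval z Q = 0 := by
    intro z
    rw [ev_smul, hf z, mul_eq_zero, or_iff_right]
    exact inv_ne_zero (by exact_mod_cast hn.ne')
  obtain ⟨j, hj⟩ := h _ hs ((hev 0).2 h0)
  refine ⟨j, fun w hw => ?_⟩
  obtain ⟨u, h1, h2, h3⟩ := hj w hw
  exact ⟨u, h1, h2, (hev u).1 h3⟩

end Pool.Agent.Helper6K9.HC
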