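import Pool.Agent.Y890.SM.Inst
import Pool.Agent.Y118.HP.FI

/-!
# The curves `y² = f(x) (x - t)`, `t` variable, as families with symplectic monodromy
-/

set_option autoImplicit false
set_option linter.unusedSectionVars false

open Filter Matrix NumberField Complex Set

namespace Pool.Agent.Helper6K9.HC

open Pool.Agent.Y118.HP (jm SpS jm_det jm_transpose jm_map SpS_map qm PM Dm InGap perC per perM er ee)
open Pool.Agent.Y890.MV (evX gl gl_self gl_ne)
open Pool.Agent.Y890.SM
open Pool.Agent.Y890.SP (Qbar)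
open Pool.Agent.Y890.HE (dense_prod)

/-- the polynomial `∏ (x - a i) (x - z)` -/
noncomputable def Fz {n : ℕ} (a : Fin n → ℝ) (z : ℂ) : Polynomial ℂ :=
  (∏ i, (Polynomial.X - Polynomial.C (a i : ℂ))) * (Polynomial.X - Polynomial.C z)

theorem Fz_coeff {n : ℕ} (a : Fin n → ℝ) (z : ℂ) (k : ℕ) : (Fz a z).coeff k =
    ((∏ i, (Polynomial.X - Polynomial.C (a i : ℂ))) * Polynomial.X).coeff k -
      (∏ i, (Polynomial.X - Polynomial.C (a i : ℂ))).coeff k * z := by
  unfold Fz
  rw [mul_sub, Polynomial.coeff_sub, Polynomial.coeff_mul_C]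

theorem Fz_real {n : ℕ} (a : Fin n → ℝ) (m : Fin (n + 1)) (t : ℝ) :
    Fz a (t : ℂ) = (∏ i, (Polynomial.X - Polynomial.C (er a m t i)) : Polynomial ℝ).map (algebraMap ℝ ℂ) := by
  rw [Pool.Agent.Y118.HP.prod_er, Polynomial.map_mul, Polynomial.map_prod]
  simp [Fz]

theorem exists_gap {n : ℕ} {a : Fin n → ℝ} (ha : StrictMono a) (m : Fin (n + 1)) :
    ∃ α β : ℝ, α < β ∧ ∀ t ∈ Icc α β, InGap a m t := by
  obtain ⟨t, ht⟩ := Pool.Agent.Y118.HP.exists_inGap ha m
  have h4 : IsOpen {s : ℝ | InGap a m s} := by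
    have : {s : ℝ | InGap a m s} = ⋂ i : Fin n, ({s : ℝ | i.castSucc < m → a i < s} ∩
        {s : ℝ | m ≤ i.castSucc → s < a i}) := by
      ext s; simp [InGap]
    rw [this]
    refine isOpen_iInter_of_finite fun i => IsOpen.inter ?_ ?_
    · by_cases h5 : i.castSucc < m
      · simp only [h5, true_imp_iff]; exact isOpen_Ioi
      · simp only [h5, false_imp_iff]; exact isOpen_univ
    · by_cases h5 : m ≤ i.castSucc
      · simp only [h5, true_imp_iff]; exact isOpen_Iio
      · simp only [h5, false_imp_iff]; exact isOpen_univ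
  obtain ⟨ε, hε, hb⟩ := Metric.isOpen_iff.1 h4 t ht
  refine ⟨t - ε / 2, t + ε / 2, by linarith, fun s hs => hb ?_⟩
  rw [Metric.mem_ball, Real.dist_eq, abs_lt]
  constructor <;> linarith [hs.1, hs.2]

theorem PM_real {n : ℕ} {a : Fin n → ℝ} (ha : StrictMono a) {m : Fin (n + 1)} {t : ℝ} (h : InGap a m t) :
    PM a m (t : ℂ) = (perM (er a m t)).map (algebraMap ℝ ℂ) := by
  ext l j
  exact Pool.Agent.Y118.HP.perC_eq_per ha h l j

/-- the Riemann-Legendre relations for complex parameters -/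
theorem PM_riemann {n : ℕ} (hn : Even n) {a : Fin n → ℝ} (ha : StrictMono a) (m : Fin (n + 1)) {z : ℂ}
    (hz : z ∈ Dm a m) : PM a m z * qm n (Fz a z) * (PM a m z).transpose = (Real.pi : ℂ) • jm ℂ n := by
  obtain ⟨α, β, hαβ, hgap⟩ := exists_gap ha m
  ext r s
  have hd : DifferentiableOn ℂ (fun z => (PM a m z * qm n (Fz a z) * (PM a m z).transpose) r s -
      ((Real.pi : ℂ) • jm ℂ n) r s) (Dm a m) := by
    simp only [Matrix.mul_apply, Matrix.transpose_apply, qm, Matrix.of_apply, Fz_coeff]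
    refine DifferentiableOn.sub ?_ (differentiableOn_const _)
    refine DifferentiableOn.fun_sum fun i _ => DifferentiableOn.mul ?_ ?_
    · refine DifferentiableOn.fun_sum fun j _ => DifferentiableOn.mul ?_ ?_
      · exact Pool.Agent.Y118.HP.differentiableOn_perC ha m r j
      · refine Differentiable.differentiableOn ?_
        fun_prop
    · exact Pool.Agent.Y118.HP.differentiableOn_perC ha m s i
  have h1 := Pool.Agent.Y118.HP.eq_zero_of_real ha m hd hαβ hgap (fun t ht => by
    have h2 := hgap t ht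
    have h3 := congrArg (fun M : Matrix (Fin n) (Fin n) ℝ => M.map (algebraMap ℝ ℂ))
      (Pool.Agent.Y118.HP.legendre hn (er a m t) (Pool.Agent.Y118.HP.er_strictMono ha h2))
    simp only [Matrix.map_mul] at h3
    have h4 : (qm n (∏ i, (Polynomial.X - Polynomial.C (er a m t i)) : Polynomial ℝ)).map (algebraMap ℝ ℂ) =
        qm n (Fz a (t : ℂ)) := by
      rw [Fz_real a m t]
      ext i j
      simp [qm, Polynomial.coeff_map]
    have h5 : (Real.pi • jm ℝ n).map (algebraMap ℝ ℂ) = (Real.pi : ℂ) • jm ℂ n := by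
      rw [← jm_map (algebraMap ℝ ℂ)]
      ext i j
      simp
    rw [h4, h5, Matrix.transpose_map, ← PM_real ha h2] at h3
    show (PM a m (t : ℂ) * qm n (Fz a (t : ℂ)) * (PM a m (t : ℂ)).transpose) r s - _ = 0
    rw [h3, sub_self]) z hz
  exact sub_eq_zero.1 h1

variable {ι : Type} [Fintype ι] [DecidableEq ι] {n : ι → ℕ}

/-- the coefficients of the polynomials `∏ (x - a i j) (x - t i)` -/
noncomputable def cfL (a : ∀ i, Fin (n i) → Qbar) (i : ι) (k : ℕ) : MvPolynomial ι Qbar :=
  ((∏ j, (Polynomial.X - Polynomial.C (MvPolynomial.C (σ := ι) (a i j)))) *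
    (Polynomial.X - Polynomial.C (MvPolynomial.X (R := Qbar) i))).coeff k

theorem cfL_eval (a : ∀ i, Fin (n i) → ℝ) (b : ∀ i, Fin (n i) → Qbar)
    (hb : ∀ i j, algebraMap Qbar ℂ (b i j) = (a i j : ℂ)) (i : ι) (k : ℕ) (x : ι → ℂ) :
    MvPolynomial.aeval x (cfL b i k) = (Fz (a i) (x i)).coeff k := by
  have h1 : Fz (a i) (x i) = ((∏ j, (Polynomial.X - Polynomial.C (MvPolynomial.C (σ := ι) (b i j)))) *
      (Polynomial.X - Polynomial.C (MvPolynomial.X (R := Qbar) i))).map
        (MvPolynomial.aeval x : _ →ₐ[Qbar] ℂ).toRingHom := by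
    rw [Polynomial.map_mul, Polynomial.map_prod]
    unfold Fz
    congr 1
    · refine Finset.prod_congr rfl fun j _ => ?_
      rw [Polynomial.map_sub, Polynomial.map_X, Polynomial.map_C, ← hb]
      simp [MvPolynomial.algebraMap_eq]
    · rw [Polynomial.map_sub, Polynomial.map_X, Polynomial.map_C]
      simp
  rw [h1, Polynomial.coeff_map]
  rfl

/-- the polarization -/
noncomputable def QL (a : ∀ i, Fin (n i) → Qbar) (i : ι) : Matrix (Fin (n i)) (Fin (n i)) (MvPolynomial ι Qbar) :=
  Matrix.of fun r s => MvPolynomial.C (twoI * ((((r : ℕ) : Qbar) - ((s : ℕ) : Qbar)) / 2)) *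
    cfL a i ((r : ℕ) + (s : ℕ) + 2)

theorem QL_eval (a : ∀ i, Fin (n i) → ℝ) (b : ∀ i, Fin (n i) → Qbar)
    (hb : ∀ i j, algebraMap Qbar ℂ (b i j) = (a i j : ℂ)) (i : ι) (x : ι → ℂ) :
    (QL b i).map (MvPolynomial.aeval x) = (2 * Complex.I) • qm (n i) (Fz (a i) (x i)) := by
  refine Matrix.ext fun r s => ?_
  rw [Matrix.map_apply, QL, Matrix.of_apply, map_mul, cfL_eval a b hb, MvPolynomial.aeval_C, Matrix.smul_apply, qm,
    Matrix.of_apply, map_mul, map_div₀, map_sub, map_natCast, map_natCast, map_ofNat, twoI_coe, smul_eq_mul]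
  ring

theorem QL_alt (a : ∀ i, Fin (n i) → Qbar) (i : ι) : (QL a i).transpose = -QL a i := by
  refine Matrix.ext fun r s => ?_
  have h1 : (MvPolynomial.C (twoI * ((((s : ℕ) : Qbar) - ((r : ℕ) : Qbar)) / 2)) : MvPolynomial ι Qbar) =
      -MvPolynomial.C (twoI * ((((r : ℕ) : Qbar) - ((s : ℕ) : Qbar)) / 2)) := by
    rw [← map_neg]
    congr 1
    ring
  rw [Matrix.transpose_apply, Matrix.neg_apply, QL, Matrix.of_apply, Matrix.of_apply,
    show (s : ℕ) + (r : ℕ) + 2 = (r : ℕ) + (s : ℕ) + 2 by omega, h1]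
  generalize (MvPolynomial.C (twoI * ((((r : ℕ) : Qbar) - ((s : ℕ) : Qbar)) / 2)) : MvPolynomial ι Qbar) = A
  generalize cfL a i ((r : ℕ) + (s : ℕ) + 2) = B
  ring

/-- the domain -/
def UL (a : ∀ i, Fin (n i) → ℝ) (m : ∀ i, Fin (n i + 1)) : Set (ι → ℂ) := {x | ∀ i, x i ∈ Dm (a i) (m i)}

theorem UL_eq (a : ∀ i, Fin (n i) → ℝ) (m : ∀ i, Fin (n i + 1)) :
    UL a m = Set.pi Set.univ fun i => Dm (a i) (m i) := by
  ext x
  simp [UL]

/-- invariance of the relations -/
theorem mon_line (hn : ∀ i, Even (n i)) (a : ∀ i, Fin (n i) → ℝ) (ha : ∀ i, StrictMono (a i))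
    (m : ∀ i, Fin (n i + 1)) (g : ∀ i, Matrix (Fin (n i)) (Fin (n i)) ℂ) (hg : ∀ i, g i ∈ SpS ℂ (n i))
    (p : MvPolynomial (Ix n) (MvPolynomial ι ℂ))
    (hp : ∀ x ∈ UL a m, evX x (fun q => PM (a q.1) (m q.1) (x q.1) q.2.1 q.2.2) p = 0) :
    ∀ x ∈ UL a m, evX x (fun q => (g q.1 * PM (a q.1) (m q.1) (x q.1)) q.2.1 q.2.2) p = 0 := by
  classical
  have key : ∀ A : Finset ι, ∀ x ∈ UL a m, evX x (fun q => if q.1 ∈ A then
      (g q.1 * PM (a q.1) (m q.1) (x q.1)) q.2.1 q.2.2 else PM (a q.1) (m q.1) (x q.1) q.2.1 q.2.2) p = 0 := by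
    intro A
    induction A using Finset.induction_on with
    | empty =>
      intro x hx
      simpa using hp x hx
    | insert i0 A hi0 ih =>
      intro x hx
      -- the value at the other blocks
      set V : Ix n → ℂ := fun q => if q.1 ∈ A then
        (g q.1 * PM (a q.1) (m q.1) (x q.1)) q.2.1 q.2.2 else PM (a q.1) (m q.1) (x q.1) q.2.1 q.2.2 with hV
      set φ : MvPolynomial ι ℂ →+* MvPolynomial (Option (Fin (n i0) × Fin (n i0))) ℂ :=
        (MvPolynomial.aeval (R := ℂ) (fun i => if i = i0 then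
          (MvPolynomial.X none : MvPolynomial (Option (Fin (n i0) × Fin (n i0))) ℂ)
          else MvPolynomial.C (x i))).toRingHom with hφ
      set P' : MvPolynomial (Option (Fin (n i0) × Fin (n i0))) ℂ :=
        MvPolynomial.eval₂ φ (gl (fun q : Ix n => MvPolynomial.C (V q)) i0
          (fun s => MvPolynomial.X (some s))) p with hP'
      have hev : ∀ (z : ℂ) (Y : Matrix (Fin (n i0)) (Fin (n i0)) ℂ), Pool.Agent.Y118.HP.ev P' z Y =
          evX (Function.update x i0 z) (gl V i0 (fun s => Y s.1 s.2)) p := by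
        intro z Y
        unfold Pool.Agent.Y118.HP.ev evX
        rw [hP', MvPolynomial.hom_eval₂]
        congr 1
        · refine MvPolynomial.ringHom_ext (fun c => ?_) (fun i => ?_)
          · simp [hφ, MvPolynomial.algebraMap_eq]
          · by_cases hi : i = i0
            · subst hi
              simp [hφ]
            · simp [hφ, hi, Function.update_of_ne hi]
        · funext q
          obtain ⟨j, s⟩ := q
          by_cases hj : j = i0
          · subst hj
            simp [gl_self]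
          · simp [gl_ne _ _ hj]
      have hup : ∀ z ∈ Dm (a i0) (m i0), Function.update x i0 z ∈ UL a m := by
        intro z hz i
        by_cases hi : i = i0
        · subst hi
          rw [Function.update_self]
          exact hz
        · rw [Function.update_of_ne hi]
          exact hx i
      have hI : P' ∈ Pool.Agent.Y118.HP.Id (a i0) (m i0) := by
        intro z hz
        rw [hev]
        refine Eq.trans ?_ (ih _ (hup z hz))
        congr 1
        funext q
        obtain ⟨j, s⟩ := q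
        by_cases hj : j = i0
        · subst hj
          rw [gl_self, if_neg hi0]
          simp
        · rw [gl_ne _ _ hj, hV]
          simp only [Function.update_of_ne hj]
      have h1 := Pool.Agent.Y118.HP.sp_mem (hn i0) (ha i0) (m i0) (g i0) (hg i0)
      have h2 := Pool.Agent.Y118.HP.mem_Mon'.1 h1 P' hI (x i0) (hx i0)
      rw [hev, Function.update_eq_self] at h2
      refine Eq.trans ?_ h2
      congr 1
      funext q
      obtain ⟨j, s⟩ := q
      by_cases hj : j = i0
      · subst hj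
        rw [gl_self]
        simp
      · rw [gl_ne _ _ hj, hV]
        simp [hj]
  intro x hx
  simpa using key Finset.univ x hx

/-- the family of the products of the curves `y² = ∏ (x - a i j) (x - t i)` -/
noncomputable def lineFam (hn : ∀ i, Even (n i)) (a : ∀ i, Fin (n i) → ℝ) (ha : ∀ i, StrictMono (a i))
    (b : ∀ i, Fin (n i) → Qbar) (hb : ∀ i j, algebraMap Qbar ℂ (b i j) = (a i j : ℂ))
    (m : ∀ i, Fin (n i + 1)) : SympFam ι n where
  U := UL a m
  isOpen := by
    rw [UL_eq]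
    exact isOpen_set_pi Set.finite_univ fun i _ => Pool.Agent.Y118.HP.isOpen_Dm _ _
  conn := by
    rw [UL_eq]
    exact isPreconnected_univ_pi fun i => Pool.Agent.Y118.HP.isPreconnected_Dm (ha i) (m i)
  nonempty := by
    choose t ht using fun i => Pool.Agent.Y118.HP.exists_inGap (ha i) (m i)
    exact ⟨fun i => (t i : ℂ), fun i => (ht i).mem_Dm⟩
  P := fun i x => PM (a i) (m i) (x i)
  an := by
    intro i l j x hx
    have h1 : AnalyticAt ℂ (fun z => perC (ee (a i) (m i) z) l (j : ℕ)) (x i) :=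
      (Pool.Agent.Y118.HP.differentiableOn_perC (ha i) (m i) l (j : ℕ)).analyticOnNhd
        (Pool.Agent.Y118.HP.isOpen_Dm (a i) (m i)) _ (hx i)
    exact AnalyticAt.comp (g := fun z => perC (ee (a i) (m i) z) l (j : ℕ)) (f := fun x : ι → ℂ => x i)
      h1 ((ContinuousLinearMap.proj (R := ℂ) (φ := fun _ : ι => ℂ) i).analyticAt x)
  w := fun _ => 1
  Q := QL b
  Q_alt := QL_alt b
  J := fun i => jm ℚ (n i)
  J_alt := fun i => jm_transpose
  J_det := fun i => jm_det (hn i)
  riemann := by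
    intro x hx i
    have h1 := PM_riemann (hn i) (ha i) (m i) (hx i)
    have h2 : (jm ℚ (n i)).map (algebraMap ℚ ℂ) = jm ℂ (n i) := jm_map (algebraMap ℚ ℂ)
    rw [QL_eval a b hb, h2, Matrix.mul_smul, Matrix.smul_mul, h1, smul_smul, pow_one]
    congr 1
    unfold tpi
    ring
  Γ := {γ | ∀ i, γ i ∈ SpS ℚ (n i)}
  pres := fun γ hγ i => hγ i
  mon := by
    intro γ hγ p hp x hx
    exact mon_line hn a ha m (fun i => (γ i).map (algebraMap ℚ ℂ))
      (fun i => SpS_map (algebraMap ℚ ℂ) (hγ i)) p hp x hx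
  dense := by
    intro R hR M hM
    refine dense_prod hn R (fun g hg => hR g hg) M fun i => ?_
    have h1 := hM i
    have h2 : (jm ℚ (n i)).map (algebraMap ℚ ℂ) = jm ℂ (n i) := jm_map (algebraMap ℚ ℂ)
    rw [h2] at h1
    exact h1

end Pool.Agent.Helper6K9.HC
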