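import Pool.Agent.R437.Met.Tors
import Pool.Agent.Helper6K9.HC.Cover

/-!
# Points on few hypersurfaces, near a given point: exceptional sets of codimension two
-/

set_option autoImplicit false

open MvPolynomial Filter Topology
open scoped ENNReal

namespace Pool.Agent.Helper6K9.HC

open Pool.Agent.Y124 (Cov)
open Pool.Agent.Y890.MV (InnerM)
open Pool.Agent.R437.Met (Fam.block)

variable {X : Type} [Fintype X] [Nonempty X]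

/-- one exponent; `W r` is a region in which hypersurfaces are covered by few balls of radius `r` -/
theorem cov_gen (Ex : ℝ → Set (X → ℂ)) (R : ℝ) (hb : ∀ T, ∀ x ∈ Ex T, ‖x‖ ≤ R)
    (hmono : ∀ T T', 1 ≤ T → T ≤ T' → Ex T ⊆ Ex T') (d : ℕ) (W : ℝ → Set (X → ℂ))
    (hW : ∀ r r', r ≤ r' → W r ⊆ W r')
    (hball : ∀ D : ℕ, ∃ A C : ℝ, 0 ≤ A ∧ 0 ≤ C ∧
      ∀ Q : MvPolynomial X ℂ, Q ≠ 0 → Q.totalDegree ≤ D → ∀ r : ℝ, 0 < r → r ≤ 1 →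
        ∃ S : Finset (X → ℂ), (S.card : ℝ) ≤ C * r⁻¹ ^ d ∧
          ∀ z, ‖z‖ ≤ R → z ∈ W r → eval z Q = 0 → ∃ s ∈ S, dist z s ≤ A * r)
    {τ ε : ℝ} (hτ : 0 < τ) (hε : 0 < ε)
    (H : ∃ (D : ℕ) (C T₀ : ℝ), 0 ≤ C ∧ ∀ T : ℝ, T₀ ≤ T → Cov D ⌊C * T ^ ε⌋₊ (Ex T)) :
    ∃ E : Set (X → ℂ), dimH E ≤ ENNReal.ofReal ((d * τ + ε) / τ) ∧
      ∀ ξ ∉ E, ∀ C : ℝ, ∃ T₁ : ℝ, ∀ T : ℝ, T₁ ≤ T → ∀ x ∈ Ex T, x ∈ W ((2 * T) ^ (-τ)) →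
        C * T ^ (-τ) < dist ξ x := by
  classical
  obtain ⟨D, C, T₀, hC, hcov⟩ := H
  obtain ⟨A, C₂, hA, hC₂, hball⟩ := hball D
  -- the centers
  have hS : ∀ k : ℕ, ∃ S : Finset (X → ℂ),
      (S.card : ℝ) ≤ C * C₂ * ((2 : ℝ) ^ k) ^ (d * τ + ε) ∧
      (T₀ ≤ (2 : ℝ) ^ k → ∀ x ∈ Ex ((2 : ℝ) ^ k), x ∈ W (((2 : ℝ) ^ k) ^ (-τ)) →
        ∃ s ∈ S, dist x s ≤ A * ((2 : ℝ) ^ k) ^ (-τ)) := by
    intro k
    have hT1 : (1 : ℝ) ≤ 2 ^ k := one_le_pow₀ (by norm_num)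
    have hT0 : (0 : ℝ) < 2 ^ k := by positivity
    by_cases hk : T₀ ≤ (2 : ℝ) ^ k
    · set T : ℝ := 2 ^ k with hT
      obtain ⟨Φ, hΦ, hΦ2, hΦ3⟩ := hcov T hk
      have hr : 0 < T ^ (-τ) := by positivity
      have hr1 : T ^ (-τ) ≤ 1 := Real.rpow_le_one_of_one_le_of_nonpos hT1 (by linarith)
      have h1 : ∀ P : MvPolynomial X ℂ, ∃ S : Finset (X → ℂ), P ∈ Φ →
          (S.card : ℝ) ≤ C₂ * (T ^ (-τ))⁻¹ ^ d ∧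
          ∀ z, ‖z‖ ≤ R → z ∈ W (T ^ (-τ)) → eval z P = 0 → ∃ s ∈ S, dist z s ≤ A * T ^ (-τ) := by
        intro P
        by_cases hP : P ∈ Φ
        · obtain ⟨S, hS1, hS2⟩ := hball P (hΦ2 P hP).1 (hΦ2 P hP).2 _ hr hr1
          exact ⟨S, fun _ => ⟨hS1, hS2⟩⟩
        · exact ⟨∅, fun h => absurd h hP⟩
      choose S hS using h1
      refine ⟨Φ.biUnion S, ?_, fun _ x hx hxW => ?_⟩
      · calc (((Φ.biUnion S).card : ℕ) : ℝ) ≤ ((∑ P ∈ Φ, (S P).card : ℕ) : ℝ) := by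
              exact_mod_cast Finset.card_biUnion_le
          _ ≤ ∑ P ∈ Φ, C₂ * (T ^ (-τ))⁻¹ ^ d := by
              push_cast
              exact Finset.sum_le_sum fun P hP => (hS P hP).1
          _ = (Φ.card : ℝ) * (C₂ * (T ^ (-τ))⁻¹ ^ d) := by
              rw [Finset.sum_const, nsmul_eq_mul]
          _ ≤ (C * T ^ ε) * (C₂ * (T ^ (-τ))⁻¹ ^ d) := by
              refine mul_le_mul_of_nonneg_right ?_ (by positivity)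
              have h2 : ((⌊C * T ^ ε⌋₊ : ℕ) : ℝ) ≤ C * T ^ ε := Nat.floor_le (by positivity)
              refine le_trans ?_ h2
              exact_mod_cast hΦ
          _ = C * C₂ * T ^ (d * τ + ε) := by
              have h3 : (T ^ (-τ))⁻¹ ^ d = T ^ (d * τ) := by
                rw [← Real.rpow_neg hT0.le, neg_neg, ← Real.rpow_natCast, ← Real.rpow_mul hT0.le]
                congr 1
                ring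
              rw [h3, Real.rpow_add hT0]
              ring
      · obtain ⟨P, hP, h0⟩ := hΦ3 x hx
        obtain ⟨s, hs, hds⟩ := (hS P hP).2 x (hb T x hx) hxW h0
        exact ⟨s, Finset.mem_biUnion.2 ⟨P, hP, hs⟩, hds⟩
    · refine ⟨∅, ?_, fun h => absurd h hk⟩
      rw [Finset.card_empty, Nat.cast_zero]
      positivity
  choose S hScard hScov using hS
  have hs' : 0 ≤ d * τ + ε := by positivity
  obtain ⟨E, hE, h⟩ := Fam.block (fun x : X → ℂ => x) (fun k => (S k : Set (X → ℂ))) hs' hτ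
    (fun δ hδ => ⟨C * C₂, fun k => ⟨Finset.finite_toSet _, by
      rw [Set.ncard_coe_finset]
      refine (hScard k).trans (mul_le_mul_of_nonneg_left ?_ (by positivity))
      exact Real.rpow_le_rpow_of_exponent_le (one_le_pow₀ (by norm_num)) (by linarith)⟩⟩)
  refine ⟨E, hE, fun ξ hξ C' => ?_⟩
  obtain ⟨K, hK⟩ := h ξ hξ (|C'| * 2 ^ τ + A)
  refine ⟨max (max 1 T₀) (2 ^ K), fun T hT y hy hyW => ?_⟩
  have hT1 : 1 ≤ T := ((le_max_left _ _).trans (le_max_left _ _)).trans hT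
  have hTT : T₀ ≤ T := ((le_max_right _ _).trans (le_max_left _ _)).trans hT
  have hTK : (2 : ℝ) ^ K ≤ T := (le_max_right _ _).trans hT
  have hT0 : 0 < T := by linarith
  set k : ℕ := Nat.log 2 ⌊T⌋₊ with hk
  have hfl : 1 ≤ ⌊T⌋₊ := Nat.one_le_floor_iff _ |>.mpr hT1
  have e1 : (2 : ℝ) ^ k ≤ T := by
    have e1 : 2 ^ k ≤ ⌊T⌋₊ := Nat.pow_log_le_self 2 (by omega)
    calc (2 : ℝ) ^ k = ((2 ^ k : ℕ) : ℝ) := by push_cast; rfl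
      _ ≤ (⌊T⌋₊ : ℝ) := by exact_mod_cast e1
      _ ≤ T := Nat.floor_le hT0.le
  have e2 : T ≤ (2 : ℝ) ^ (k + 1) := by
    have e3 : ⌊T⌋₊ < 2 ^ (k + 1) := Nat.lt_pow_succ_log_self (by norm_num) _
    have e4 : T < (⌊T⌋₊ : ℝ) + 1 := Nat.lt_floor_add_one _
    have e5 : ((⌊T⌋₊ + 1 : ℕ) : ℝ) ≤ ((2 ^ (k + 1) : ℕ) : ℝ) := by exact_mod_cast e3
    push_cast at e5
    linarith
  have e3 : (2 : ℝ) ^ (k + 1) ≤ 2 * T := by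
    rw [pow_succ']
    linarith
  have hKk : K ≤ k := by
    refine Nat.le_log_of_pow_le (by norm_num) (Nat.le_floor ?_)
    push_cast
    exact hTK
  have hy1 : y ∈ Ex ((2 : ℝ) ^ (k + 1)) := hmono T _ hT1 e2 hy
  have e4 : (2 * T) ^ (-τ) ≤ ((2 : ℝ) ^ (k + 1)) ^ (-τ) :=
    Real.rpow_le_rpow_of_nonpos (by positivity) e3 (by linarith)
  obtain ⟨s, hs, hds⟩ := hScov (k + 1) (hTT.trans e2) y hy1 (hW _ _ e4 hyW)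
  have h2 := hK (k + 1) (by omega) s (Finset.mem_coe.2 hs)
  have h3 : |C'| * T ^ (-τ) ≤ |C'| * 2 ^ τ * ((2 : ℝ) ^ (k + 1)) ^ (-τ) := by
    calc |C'| * T ^ (-τ) = |C'| * 2 ^ τ * (2 * T) ^ (-τ) := by
          rw [Real.mul_rpow (by norm_num) hT0.le, mul_assoc, ← mul_assoc (2 ^ τ),
            ← Real.rpow_add (by norm_num)]
          simp
      _ ≤ |C'| * 2 ^ τ * ((2 : ℝ) ^ (k + 1)) ^ (-τ) := mul_le_mul_of_nonneg_left e4 (by positivity)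
  have h4 : C' * T ^ (-τ) ≤ |C'| * T ^ (-τ) := mul_le_mul_of_nonneg_right (le_abs_self C') (by positivity)
  have h5 := dist_triangle ξ y s
  have h6 : dist y s ≤ A * ((2 : ℝ) ^ (k + 1)) ^ (-τ) := hds
  have h7 : (|C'| * 2 ^ τ + A) * ((2 : ℝ) ^ (k + 1)) ^ (-τ) =
      |C'| * 2 ^ τ * ((2 : ℝ) ^ (k + 1)) ^ (-τ) + A * ((2 : ℝ) ^ (k + 1)) ^ (-τ) := by ring
  linarith

/-- all exponents `1 / (m + 1)` -/
theorem cov_seq (Ex : ℝ → Set (X → ℂ)) (R : ℝ) (hb : ∀ T, ∀ x ∈ Ex T, ‖x‖ ≤ R)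
    (hmono : ∀ T T', 1 ≤ T → T ≤ T' → Ex T ⊆ Ex T') (d : ℕ) (W : ℝ → Set (X → ℂ))
    (hW : ∀ r r', r ≤ r' → W r ⊆ W r')
    (hball : ∀ D : ℕ, ∃ A C : ℝ, 0 ≤ A ∧ 0 ≤ C ∧
      ∀ Q : MvPolynomial X ℂ, Q ≠ 0 → Q.totalDegree ≤ D → ∀ r : ℝ, 0 < r → r ≤ 1 →
        ∃ S : Finset (X → ℂ), (S.card : ℝ) ≤ C * r⁻¹ ^ d ∧
          ∀ z, ‖z‖ ≤ R → z ∈ W r → eval z Q = 0 → ∃ s ∈ S, dist z s ≤ A * r)
    (H : ∀ ε : ℝ, 0 < ε → ∃ (D : ℕ) (C T₀ : ℝ), 0 ≤ C ∧ ∀ T : ℝ, T₀ ≤ T → Cov D ⌊C * T ^ ε⌋₊ (Ex T)) :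
    ∃ E : Set (X → ℂ), dimH E ≤ d ∧
      ∀ ξ ∉ E, ∀ (m : ℕ) (C : ℝ), ∃ T₁ : ℝ, ∀ T : ℝ, T₁ ≤ T → ∀ x ∈ Ex T,
        x ∈ W ((2 * T) ^ (-(1 / ((m : ℝ) + 1)))) → C * T ^ (-(1 / ((m : ℝ) + 1))) < dist ξ x := by
  classical
  have h1 : ∀ m j : ℕ, ∃ E : Set (X → ℂ),
      dimH E ≤ ENNReal.ofReal (d + 1 / ((j : ℝ) + 1)) ∧
      ∀ ξ ∉ E, ∀ C : ℝ, ∃ T₁ : ℝ, ∀ T : ℝ, T₁ ≤ T → ∀ x ∈ Ex T,
        x ∈ W ((2 * T) ^ (-(1 / ((m : ℝ) + 1)))) → C * T ^ (-(1 / ((m : ℝ) + 1))) < dist ξ x := by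
    intro m j
    have hτ : (0 : ℝ) < 1 / ((m : ℝ) + 1) := by positivity
    have hε : (0 : ℝ) < 1 / ((m : ℝ) + 1) * (1 / ((j : ℝ) + 1)) := by positivity
    obtain ⟨E, hE, h⟩ := cov_gen Ex R hb hmono d W hW hball hτ hε (H _ hε)
    refine ⟨E, hE.trans (le_of_eq ?_), h⟩
    congr 1
    field_simp
  choose E hdim hgood using h1
  refine ⟨⋃ m, ⋂ j, E m j, ?_, fun ξ hξ m C => ?_⟩
  · rw [dimH_iUnion]
    refine iSup_le fun m => ?_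
    have hlim : Tendsto (fun j : ℕ => ENNReal.ofReal (d + 1 / ((j : ℝ) + 1)))
        atTop (𝓝 (ENNReal.ofReal (d : ℝ))) := by
      refine ENNReal.tendsto_ofReal ?_
      have h2 : Tendsto (fun j : ℕ => 1 / ((j : ℝ) + 1)) atTop (𝓝 0) :=
        tendsto_one_div_add_atTop_nhds_zero_nat
      have h3 := h2.const_add (d : ℝ)
      rwa [add_zero] at h3
    rw [ENNReal.ofReal_natCast] at hlim
    refine ge_of_tendsto' hlim fun j => ?_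
    exact (dimH_mono (Set.iInter_subset _ j)).trans (hdim m j)
  · have h2 : ξ ∉ ⋂ j, E m j := fun h => hξ (Set.mem_iUnion.2 ⟨m, h⟩)
    rw [Set.mem_iInter] at h2
    push Not at h2
    obtain ⟨j, hj⟩ := h2
    exact hgood m j ξ hj C

/-- the points near `ξ`, for all exponents -/
theorem all_exp {Ex : ℝ → Set (X → ℂ)} {ξ : X → ℂ}
    (h : ∀ (m : ℕ) (C : ℝ), ∃ T₁ : ℝ, ∀ T : ℝ, T₁ ≤ T → ∀ x ∈ Ex T,
      C * T ^ (-(1 / ((m : ℝ) + 1))) < dist ξ x) (τ : ℝ) (hτ : 0 < τ) (C : ℝ) :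
    ∃ T₁ : ℝ, ∀ T : ℝ, T₁ ≤ T → ∀ x ∈ Ex T, C * T ^ (-τ) < dist ξ x := by
  obtain ⟨m, hm⟩ := exists_nat_ge (1 / τ)
  have hm' : 1 / ((m : ℝ) + 1) ≤ τ := by
    rw [div_le_iff₀ (by positivity)]
    rw [div_le_iff₀ hτ] at hm
    nlinarith
  obtain ⟨T₁, hT⟩ := h m |C|
  refine ⟨max T₁ 1, fun T hT' x hx => ?_⟩
  have hT1 : 1 ≤ T := (le_max_right _ _).trans hT'
  refine lt_of_le_of_lt ?_ (hT T ((le_max_left _ _).trans hT') x hx)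
  calc C * T ^ (-τ) ≤ |C| * T ^ (-τ) :=
        mul_le_mul_of_nonneg_right (le_abs_self C) (by positivity)
    _ ≤ |C| * T ^ (-(1 / ((m : ℝ) + 1))) :=
        mul_le_mul_of_nonneg_left (Real.rpow_le_rpow_of_exponent_le hT1 (by linarith))
          (abs_nonneg _)

/-- complex points -/
theorem cov_all (Ex : ℝ → Set (X → ℂ)) (R : ℝ) (hR : 0 ≤ R) (hb : ∀ T, ∀ x ∈ Ex T, ‖x‖ ≤ R)
    (hmono : ∀ T T', 1 ≤ T → T ≤ T' → Ex T ⊆ Ex T')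
    (H : ∀ ε : ℝ, 0 < ε → ∃ (D : ℕ) (C T₀ : ℝ), 0 ≤ C ∧ ∀ T : ℝ, T₀ ≤ T → Cov D ⌊C * T ^ ε⌋₊ (Ex T)) :
    ∃ E : Set (X → ℂ), dimH E ≤ (2 * (Fintype.card X - 1) : ℕ) ∧
      ∀ ξ ∉ E, ∀ τ : ℝ, 0 < τ → ∀ C : ℝ, ∃ T₁ : ℝ, ∀ T : ℝ, T₁ ≤ T → ∀ x ∈ Ex T,
        C * T ^ (-τ) < dist ξ x := by
  obtain ⟨E, hE, h⟩ := cov_seq Ex R hb hmono (2 * (Fintype.card X - 1)) (fun _ => Set.univ)
    (fun _ _ _ => subset_rfl) (fun D => by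
      obtain ⟨A, C, hA, hC, h⟩ := hyp_balls X D R hR
      refine ⟨A, C, hA, hC, fun Q hQ hD r hr hr1 => ?_⟩
      obtain ⟨S, hS, h1⟩ := h Q hQ hD r hr hr1
      exact ⟨S, hS, fun z hz _ h0 => h1 z hz h0⟩) H
  refine ⟨E, hE, fun ξ hξ => all_exp fun m C => ?_⟩
  obtain ⟨T₁, hT⟩ := h ξ hξ m C
  exact ⟨T₁, fun T hT' x hx => hT T hT' x hx (Set.mem_univ _)⟩

/-- real points -/
theorem cov_all_real (Ex : ℝ → Set (X → ℂ)) (R : ℝ) (hR : 0 ≤ R) (hb : ∀ T, ∀ x ∈ Ex T, ‖x‖ ≤ R)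
    (hmono : ∀ T T', 1 ≤ T → T ≤ T' → Ex T ⊆ Ex T')
    (H : ∀ ε : ℝ, 0 < ε → ∃ (D : ℕ) (C T₀ : ℝ), 0 ≤ C ∧ ∀ T : ℝ, T₀ ≤ T → Cov D ⌊C * T ^ ε⌋₊ (Ex T)) :
    ∃ E : Set (X → ℂ), dimH E ≤ (Fintype.card X - 1 : ℕ) ∧
      ∀ ξ ∉ E, (∀ j, (ξ j).im = 0) → ∀ τ : ℝ, 0 < τ → ∀ C : ℝ, ∃ T₁ : ℝ, ∀ T : ℝ, T₁ ≤ T → ∀ x ∈ Ex T,
        C * T ^ (-τ) < dist ξ x := by
  have h1 : ∀ B : ℕ, ∃ E : Set (X → ℂ), dimH E ≤ (Fintype.card X - 1 : ℕ) ∧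
      ∀ ξ ∉ E, ∀ (m : ℕ) (C : ℝ), ∃ T₁ : ℝ, ∀ T : ℝ, T₁ ≤ T → ∀ x ∈ Ex T,
        x ∈ {z : X → ℂ | ∀ i, |(z i).im| ≤ B * (2 * T) ^ (-(1 / ((m : ℝ) + 1)))} →
          C * T ^ (-(1 / ((m : ℝ) + 1))) < dist ξ x := by
    intro B
    refine cov_seq Ex R hb hmono (Fintype.card X - 1) (fun r => {z | ∀ i, |(z i).im| ≤ B * r})
      (fun r r' hr z hz i => (hz i).trans (mul_le_mul_of_nonneg_left hr (Nat.cast_nonneg _)))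
      (fun D => ?_) H
    obtain ⟨A, C, hA, hC, h⟩ := hyp_balls_real X D R B hR (Nat.cast_nonneg _)
    refine ⟨A, C, hA, hC, fun Q hQ hD r hr hr1 => ?_⟩
    obtain ⟨S, hS, h1⟩ := h Q hQ hD r hr hr1
    exact ⟨S, hS, fun z hz hzi h0 => h1 z hz hzi h0⟩
  choose E hE h using h1
  refine ⟨⋃ B, E B, ?_, fun ξ hξ hre => all_exp fun m C => ?_⟩
  · rw [dimH_iUnion]
    exact iSup_le hE
  · set τ : ℝ := 1 / ((m : ℝ) + 1) with hτ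
    have hτ0 : 0 < τ := by positivity
    obtain ⟨B, hB⟩ := exists_nat_ge (|C| * 2 ^ τ)
    obtain ⟨T₁, hT⟩ := h B ξ (fun h => hξ (Set.mem_iUnion.2 ⟨B, h⟩)) m C
    refine ⟨max T₁ 1, fun T hT' x hx => ?_⟩
    have hT1 : 1 ≤ T := (le_max_right _ _).trans hT'
    have hT0 : 0 < T := by linarith
    by_contra hcon
    push Not at hcon
    refine absurd (hT T ((le_max_left _ _).trans hT') x hx fun i => ?_) (not_lt.2 hcon)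
    have e1 : |(x i).im| ≤ dist ξ x := by
      have e2 : (x i).im = (x i - ξ i).im := by
        rw [Complex.sub_im, hre i, sub_zero]
      rw [e2]
      refine (Complex.abs_im_le_norm _).trans ?_
      rw [← dist_eq_norm, dist_comm]
      exact dist_le_pi_dist ξ x i
    calc |(x i).im| ≤ C * T ^ (-τ) := e1.trans hcon
      _ ≤ |C| * T ^ (-τ) := mul_le_mul_of_nonneg_right (le_abs_self C) (by positivity)
      _ = |C| * 2 ^ τ * (2 * T) ^ (-τ) := by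
          rw [Real.mul_rpow (by norm_num) hT0.le, mul_assoc, ← mul_assoc (2 ^ τ),
            ← Real.rpow_add (by norm_num)]
          simp
      _ ≤ B * (2 * T) ^ (-τ) := mul_le_mul_of_nonneg_right hB (by positivity)

/-- from the inner parts of an open set to the open set -/
theorem near_open {ι : Type} (pt : ι → X → ℂ) (U : Set (X → ℂ)) (hU : IsOpen U)
    (Bad : ℕ → ℝ → ι → Prop) (k₁ : ℕ) (Re : Set (X → ℂ)) (d : ℝ≥0∞)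
    (H : ∀ k : ℕ, k₁ ≤ k → ∃ E : Set (X → ℂ), dimH E ≤ d ∧ ∀ ξ ∉ E, ξ ∈ Re → ∀ τ : ℝ, 0 < τ → ∀ C : ℝ,
      ∃ T₁ : ℝ, ∀ T : ℝ, T₁ ≤ T → ∀ x ∈ pt '' {i | pt i ∈ InnerM U k ∧ Bad k T i}, C * T ^ (-τ) < dist ξ x) :
    dimH {ξ | ξ ∈ U ∧ ξ ∈ Re ∧ ¬ ∃ k₀ : ℕ, ∀ k : ℕ, k₀ ≤ k → ∀ τ : ℝ, 0 < τ → ∀ C : ℝ, ∃ T₁ : ℝ, ∀ T : ℝ,
      T₁ ≤ T → ∀ i, Bad k T i → C * T ^ (-τ) < dist ξ (pt i)} ≤ d := by
  classical
  have hfam : ∀ k : ℕ, ∃ E : Set (X → ℂ), dimH E ≤ d ∧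
      (k₁ ≤ k → ∀ ξ ∉ E, ξ ∈ Re → ∀ τ : ℝ, 0 < τ → ∀ C : ℝ, ∃ T₁ : ℝ, ∀ T : ℝ, T₁ ≤ T →
        ∀ x ∈ pt '' {i | pt i ∈ InnerM U k ∧ Bad k T i}, C * T ^ (-τ) < dist ξ x) := by
    intro k
    by_cases hk : k₁ ≤ k
    · obtain ⟨E, hE, h⟩ := H k hk
      exact ⟨E, hE, fun _ => h⟩
    · exact ⟨∅, by rw [dimH_empty]; exact bot_le, fun h => absurd h hk⟩
  choose E hE h using hfam
  have hsub : {ξ | ξ ∈ U ∧ ξ ∈ Re ∧ ¬ ∃ k₀ : ℕ, ∀ k : ℕ, k₀ ≤ k → ∀ τ : ℝ, 0 < τ → ∀ C : ℝ, ∃ T₁ : ℝ, ∀ T : ℝ,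
      T₁ ≤ T → ∀ i, Bad k T i → C * T ^ (-τ) < dist ξ (pt i)} ⊆ ⋃ k, E k := by
    rintro ξ ⟨hξ, hξR, hbad⟩
    by_contra hξE
    apply hbad
    obtain ⟨r, hr, hrU⟩ := Metric.isOpen_iff.1 hU ξ hξ
    obtain ⟨k₀, hk₀⟩ := exists_nat_ge (max (‖ξ‖ + r) (2 / r))
    refine ⟨max k₀ k₁, fun k hk τ hτ C => ?_⟩
    have hk1 : k₁ ≤ k := (le_max_right _ _).trans hk
    have hkk : (k₀ : ℝ) ≤ k := by exact_mod_cast (le_max_left _ _).trans hk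
    have hka : ‖ξ‖ + r ≤ k := ((le_max_left _ _).trans hk₀).trans hkk
    have hkb : 2 / r ≤ k := ((le_max_right _ _).trans hk₀).trans hkk
    have hkpos : (0 : ℝ) < k := lt_of_lt_of_le (by positivity) hkb
    have hkc : (k : ℝ)⁻¹ ≤ r / 2 := by
      rw [inv_le_comm₀ hkpos (by positivity)]
      calc (r / 2)⁻¹ = 2 / r := by rw [inv_div]
        _ ≤ k := hkb
    obtain ⟨T₁, hT₁⟩ := h k hk1 ξ (fun hmem => hξE (Set.mem_iUnion.2 ⟨k, hmem⟩)) hξR τ hτ C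
    obtain ⟨T₂, hT₂⟩ := R437.Met.Near.small (C := C) hτ (by positivity : (0 : ℝ) < r / 2)
    refine ⟨max T₁ T₂, fun T hT i hi => ?_⟩
    have hTa : T₁ ≤ T := (le_max_left _ _).trans hT
    have hTb : T₂ ≤ T := (le_max_right _ _).trans hT
    by_contra hcon
    push Not at hcon
    have hd2 : dist ξ (pt i) < r / 2 := hcon.trans_lt (hT₂ T hTb)
    have hin : pt i ∈ InnerM U k := by
      constructor
      · have h1 := norm_sub_norm_le (pt i) ξ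
        rw [← dist_eq_norm, dist_comm] at h1
        linarith
      · intro z hz
        apply hrU
        rw [Metric.mem_ball] at hz ⊢
        have h1 := dist_triangle z (pt i) ξ
        rw [dist_comm (pt i) ξ] at h1
        linarith
    exact absurd (hT₁ T hTa _ ⟨i, ⟨hin, hi⟩, rfl⟩) (not_lt.2 hcon)
  refine (dimH_mono hsub).trans ?_
  rw [dimH_iUnion]
  exact iSup_le hE

/-- **Exceptional points on few hypersurfaces, near a given point.** -/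
theorem near_codim {ι : Type} (pt : ι → X → ℂ) (U : Set (X → ℂ)) (hU : IsOpen U)
    (Bad : ℕ → ℝ → ι → Prop) (hmono : ∀ k T T' i, 1 ≤ T → T ≤ T' → Bad k T i → Bad k T' i) (k₁ : ℕ)
    (H : ∀ (k : ℕ) (ε : ℝ), k₁ ≤ k → 0 < ε → ∃ (D : ℕ) (C T₀ : ℝ), 0 ≤ C ∧ ∀ T : ℝ, T₀ ≤ T →
      Cov D ⌊C * T ^ ε⌋₊ (pt '' {i | pt i ∈ InnerM U k ∧ Bad k T i})) :
    dimH {ξ | ξ ∈ U ∧ ¬ ∃ k₀ : ℕ, ∀ k : ℕ, k₀ ≤ k → ∀ τ : ℝ, 0 < τ → ∀ C : ℝ, ∃ T₁ : ℝ, ∀ T : ℝ,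
      T₁ ≤ T → ∀ i, Bad k T i → C * T ^ (-τ) < dist ξ (pt i)} ≤ (2 * (Fintype.card X - 1) : ℕ) ∧
    dimH {ξ | ξ ∈ U ∧ (∀ j, (ξ j).im = 0) ∧ ¬ ∃ k₀ : ℕ, ∀ k : ℕ, k₀ ≤ k → ∀ τ : ℝ, 0 < τ → ∀ C : ℝ, ∃ T₁ : ℝ,
      ∀ T : ℝ, T₁ ≤ T → ∀ i, Bad k T i → C * T ^ (-τ) < dist ξ (pt i)} ≤ (Fintype.card X - 1 : ℕ) := by
  have hb : ∀ k : ℕ, ∀ T : ℝ, ∀ x ∈ pt '' {i | pt i ∈ InnerM U k ∧ Bad k T i}, ‖x‖ ≤ k := by
    rintro k T _ ⟨i, hi, rfl⟩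
    exact hi.1.1
  have hm : ∀ k : ℕ, ∀ T T' : ℝ, 1 ≤ T → T ≤ T' → pt '' {i | pt i ∈ InnerM U k ∧ Bad k T i} ⊆
      pt '' {i | pt i ∈ InnerM U k ∧ Bad k T' i} := by
    rintro k T T' hT1 hTT' _ ⟨i, hi, rfl⟩
    exact ⟨i, ⟨hi.1, hmono k T T' i hT1 hTT' hi.2⟩, rfl⟩
  constructor
  · have h1 := near_open pt U hU Bad k₁ Set.univ _ (fun k hk => by
      obtain ⟨E, hE, h⟩ := cov_all _ k (Nat.cast_nonneg _) (hb k) (hm k) (fun ε hε => H k ε hk hε)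
      exact ⟨E, hE, fun ξ hξ _ => h ξ hξ⟩)
    refine (dimH_mono ?_).trans h1
    rintro ξ ⟨h2, h3⟩
    exact ⟨h2, Set.mem_univ _, h3⟩
  · have h1 := near_open pt U hU Bad k₁ {ξ | ∀ j, (ξ j).im = 0} _ (fun k hk => by
      obtain ⟨E, hE, h⟩ := cov_all_real _ k (Nat.cast_nonneg _) (hb k) (hm k) (fun ε hε => H k ε hk hε)
      exact ⟨E, hE, fun ξ hξ hre => h ξ hξ hre⟩)
    exact h1

end Pool.Agent.Helper6K9.HC
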