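import Pool.Agent.Helper6K9.HC.Symp
import Pool.Agent.Helper6K9.HC.Line

/-!
# The codimension is best possible: two equal curves
-/

set_option autoImplicit false
set_option linter.unusedSectionVars false

open Filter Matrix NumberField Complex Set
open scoped ENNReal

namespace Pool.Agent.Helper6K9.HC

open Pool.Agent.Y890.SM

/-- the field `ℚ(i)` -/
noncomputable def Qi : Subfield ℂ := (IntermediateField.adjoin ℚ {Complex.I}).toSubfield

noncomputable instance : NumberField Qi := by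
  have h1 : FiniteDimensional ℚ (IntermediateField.adjoin ℚ {Complex.I}) := by
    refine IntermediateField.adjoin.finiteDimensional ?_
    refine IsIntegral.of_pow (n := 2) two_pos ?_
    rw [Complex.I_sq]
    exact isIntegral_one.neg
  have h2 : CharZero Qi := inferInstance
  set f : (IntermediateField.adjoin ℚ {Complex.I}) →+ Qi :=
    { toFun := fun x => ⟨x.1, x.2⟩, map_zero' := rfl, map_add' := fun _ _ => rfl } with hf
  have h3 : FiniteDimensional ℚ Qi := Module.Finite.of_surjective f.toRatLinearMap fun x => ⟨⟨x.1, x.2⟩, rfl⟩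
  exact { to_charZero := h2, to_finiteDimensional := h3 }

/-- `i` -/
noncomputable def iK : Qi := ⟨Complex.I, IntermediateField.mem_adjoin_simple_self ℚ Complex.I⟩

theorem iK_sq : iK ^ 2 = -1 := by
  apply Subtype.ext
  show Complex.I ^ 2 = -1
  exact Complex.I_sq

/-- `i` as an integer -/
noncomputable def iO : 𝓞 Qi := ⟨iK, by
  refine IsIntegral.of_pow (n := 2) two_pos ?_
  rw [iK_sq]
  exact isIntegral_one.neg⟩

theorem iO_coe : ((iO : 𝓞 Qi) : Qi) = iK := rfl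

/-- Gaussian integers -/
noncomputable def gi (A B : ℤ) : 𝓞 Qi := (A : 𝓞 Qi) + (B : 𝓞 Qi) * iO

theorem gi_coe (A B : ℤ) : ((gi A B : 𝓞 Qi) : Qi) = (A : Qi) + (B : Qi) * iK := by
  unfold gi
  push_cast
  rw [← iO_coe]
  simp

theorem gi_norm (A B : ℤ) (φ : Qi →+* ℂ) : ‖φ (gi A B : 𝓞 Qi)‖ ≤ |(A : ℝ)| + |(B : ℝ)| := by
  have h1 : ‖φ iK‖ = 1 := by
    have h2 : φ iK ^ 2 = -1 := by rw [← map_pow, iK_sq, map_neg, map_one]
    have h3 : ‖φ iK‖ ^ 2 = 1 := by rw [← norm_pow, h2, norm_neg, norm_one]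
    exact (pow_eq_one_iff_of_nonneg (norm_nonneg _) two_ne_zero).1 h3
  rw [gi_coe, map_add, map_mul, map_intCast, map_intCast]
  refine (norm_add_le _ _).trans ?_
  rw [norm_mul, h1, mul_one, Complex.norm_intCast, Complex.norm_intCast]

/-- approximations -/
noncomputable def ap (z : ℂ) (N : ℕ) : Qi := (gi ⌊N * z.re⌋ ⌊N * z.im⌋ : 𝓞 Qi) / ((N : 𝓞 Qi) : Qi)

theorem ap_height (z : ℂ) (N : ℕ) (hN : 1 ≤ N) : HeightLe Qi ((|z.re| + |z.im| + 2) * N) (ap z N) := by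
  have hN' : (1 : ℝ) ≤ N := by exact_mod_cast hN
  refine ⟨gi ⌊N * z.re⌋ ⌊N * z.im⌋, (N : 𝓞 Qi), by exact_mod_cast (by omega : N ≠ 0), fun φ => ⟨?_, ?_⟩, rfl⟩
  · refine (gi_norm _ _ φ).trans ?_
    have key : ∀ x : ℝ, |((⌊(N : ℝ) * x⌋ : ℤ) : ℝ)| ≤ N * |x| + 1 := by
      intro x
      have h1 : |((N : ℝ) * x) - ((⌊(N : ℝ) * x⌋ : ℤ) : ℝ)| ≤ 1 := by
        rw [abs_le]
        constructor
        · linarith [Int.floor_le ((N : ℝ) * x)]
        · linarith [Int.lt_floor_add_one ((N : ℝ) * x)]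
      have h2 := abs_sub_abs_le_abs_sub ((⌊(N : ℝ) * x⌋ : ℤ) : ℝ) ((N : ℝ) * x)
      rw [abs_sub_comm, abs_mul, Nat.abs_cast] at h2
      linarith
    have h1 := key z.re
    have h2 := key z.im
    nlinarith [abs_nonneg z.re, abs_nonneg z.im]
  · have h1 : φ (((N : 𝓞 Qi) : 𝓞 Qi) : Qi) = (N : ℂ) := by simp
    rw [h1, Complex.norm_natCast]
    nlinarith [abs_nonneg z.re, abs_nonneg z.im]

theorem ap_dist (z : ℂ) (N : ℕ) (hN : 1 ≤ N) : ‖z - (ap z N : ℂ)‖ ≤ 2 / N := by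
  have hN' : (0 : ℝ) < N := by exact_mod_cast hN
  have h1 : ((ap z N : Qi) : ℂ) = (((⌊(N : ℝ) * z.re⌋ : ℤ) : ℂ) + ((⌊(N : ℝ) * z.im⌋ : ℤ) : ℂ) * Complex.I) / (N : ℂ) := by
    unfold ap
    rw [gi_coe]
    push_cast
    rfl
  have hNc : (N : ℂ) ≠ 0 := by exact_mod_cast hN'.ne'
  have h2 : z - (ap z N : ℂ) = ((N : ℂ) * z - (((⌊(N : ℝ) * z.re⌋ : ℤ) : ℂ) +
      ((⌊(N : ℝ) * z.im⌋ : ℤ) : ℂ) * Complex.I)) / (N : ℂ) := by
    rw [h1]
    field_simp
  rw [h2, norm_div, Complex.norm_natCast]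
  refine div_le_div_of_nonneg_right ?_ hN'.le
  refine (Complex.norm_le_abs_re_add_abs_im _).trans ?_
  have key : ∀ x : ℝ, |((N : ℝ) * x) - ((⌊(N : ℝ) * x⌋ : ℤ) : ℝ)| ≤ 1 := by
    intro x
    rw [abs_le]
    constructor
    · linarith [Int.floor_le ((N : ℝ) * x)]
    · linarith [Int.lt_floor_add_one ((N : ℝ) * x)]
  have e1 : ((N : ℂ) * z - (((⌊(N : ℝ) * z.re⌋ : ℤ) : ℂ) + ((⌊(N : ℝ) * z.im⌋ : ℤ) : ℂ) * Complex.I)).re =
      (N : ℝ) * z.re - ((⌊(N : ℝ) * z.re⌋ : ℤ) : ℝ) := by simp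
  have e2 : ((N : ℂ) * z - (((⌊(N : ℝ) * z.re⌋ : ℤ) : ℂ) + ((⌊(N : ℝ) * z.im⌋ : ℤ) : ℂ) * Complex.I)).im =
      (N : ℝ) * z.im - ((⌊(N : ℝ) * z.im⌋ : ℤ) : ℝ) := by simp
  rw [e1, e2]
  have := key z.re
  have := key z.im
  linarith

/-- the exponents of one variable -/
def dl {N : ℕ} (i : Fin 2) (r s : Fin N) : Ix (fun _ : Fin 2 => N) → Fin (1 + 1) := Pi.single ⟨i, (r, s)⟩ 1

theorem dl_prod {N : ℕ} (i : Fin 2) (r s : Fin N) (Y : ∀ _ : Fin 2, Matrix (Fin N) (Fin N) ℂ) :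
    ∏ y : Ix (fun _ : Fin 2 => N), (Y y.1 y.2.1 y.2.2) ^ (dl i r s y : ℕ) = Y i r s := by
  classical
  rw [Finset.prod_eq_single (⟨i, (r, s)⟩ : Ix (fun _ : Fin 2 => N))]
  · unfold dl
    rw [Pi.single_eq_same]
    simp
  · intro y _ hy
    unfold dl
    rw [Pi.single_eq_of_ne hy]
    simp
  · intro h
    exact absurd (Finset.mem_univ _) h

/-- two equal curves: no point of the diagonal is approximated by generic points only -/
theorem diag_bad {N : ℕ} (hN : 0 < N) (F : SympFam (Fin 2) (fun _ : Fin 2 => N)) (w : ℕ → ℂ)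
    (hP : ∀ t : ℂ, F.P 0 (fun _ => t) = F.P 1 (fun _ => t)) (z : ℂ) (hz : (fun _ : Fin 2 => z) ∈ F.U) :
    (fun _ : Fin 2 => z) ∈ Exc F w := by
  classical
  refine ⟨hz, fun h => ?_⟩
  set c : ℝ := |z.re| + |z.im| + 2 with hc
  have hc2 : 2 ≤ c := by
    have := abs_nonneg z.re
    have := abs_nonneg z.im
    linarith
  obtain ⟨T₁, hT₁⟩ := h Qi 1 one_pos 1 (2 * c)
  obtain ⟨r, hr, hrU⟩ := Metric.isOpen_iff.1 F.isOpen _ hz
  obtain ⟨M, hM⟩ := exists_nat_ge (max (max T₁ 1) (3 / r))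
  have hM1 : T₁ ≤ M := ((le_max_left _ _).trans (le_max_left _ _)).trans hM
  have hM2 : (1 : ℝ) ≤ M := ((le_max_right _ _).trans (le_max_left _ _)).trans hM
  have hM3 : 3 / r ≤ M := (le_max_right _ _).trans hM
  have hMn : 1 ≤ M := by exact_mod_cast hM2
  have hM0 : (0 : ℝ) < M := by linarith
  set t : Qi := ap z M with ht
  have hd : ‖z - (t : ℂ)‖ ≤ 2 / M := ap_dist z M hMn
  have htU : (fun _ : Fin 2 => (t : ℂ)) ∈ F.U := by
    apply hrU
    rw [Metric.mem_ball, dist_pi_lt_iff hr]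
    intro _
    rw [dist_comm, dist_eq_norm]
    refine hd.trans_lt ?_
    rw [div_le_iff₀ hr] at hM3
    rw [div_lt_iff₀ hM0]
    nlinarith
  have hgen := hT₁ (c * M) (by nlinarith) (fun _ => t) (fun _ => ⟨ap_height z M hMn, by
    refine hd.trans (le_of_eq ?_)
    rw [Real.rpow_neg_one]
    field_simp⟩)
  set P : Matrix (Fin N) (Fin N) ℂ := F.P 0 (fun _ => (t : ℂ)) with hPdef
  have hP1 : F.P 1 (fun _ => (t : ℂ)) = P := (hP _).symm
  have hdet : P.det ≠ 0 := by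
    intro h0
    have h1 := congrArg Matrix.det (F.riemann _ htU 0)
    rw [Matrix.det_mul, Matrix.det_mul, ← hPdef, h0, zero_mul, zero_mul, Matrix.det_smul] at h1
    exact mul_ne_zero (pow_ne_zero _ (pow_ne_zero _ tpi_ne)) (F.Jx_det 0) h1.symm
  obtain ⟨a, b, hab⟩ : ∃ a b, P a b ≠ 0 := by
    by_contra hcon
    push Not at hcon
    apply hdet
    have h0 : P = 0 := by
      ext a b
      exact hcon a b
    have : Nonempty (Fin N) := ⟨⟨0, hN⟩⟩
    rw [h0, Matrix.det_zero]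
  set cc : (Ix (fun _ : Fin 2 => N) → Fin (1 + 1)) → Fin 1 → 𝓞 Qi := fun l _ =>
    if l = dl 0 a b then 1 else if l = dl 1 a b then -1 else 0 with hcc
  have hne : (dl 0 a b : Ix (fun _ : Fin 2 => N) → Fin (1 + 1)) ≠ dl 1 a b := by
    intro h1
    have h2 := congrFun h1 ⟨0, (a, b)⟩
    unfold dl at h2
    rw [Pi.single_eq_same, Pi.single_eq_of_ne] at h2
    · exact absurd h2 (by decide)
    · intro h3
      have h4 : (0 : Fin 2) = 1 := congrArg Sigma.fst h3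
      exact absurd h4 (by decide)
  have hpoly : ∀ (v : ℂ) (Y : ∀ _ : Fin 2, Matrix (Fin N) (Fin N) ℂ),
      poly (fun l a => Qi.subtype (cc l a : Qi)) (fun j : Fin 1 => v ^ (j : ℕ)) Y = Y 0 a b - Y 1 a b := by
    intro v Y
    unfold poly
    rw [Finset.sum_eq_add (dl 0 a b) (dl 1 a b) hne]
    · rw [dl_prod, dl_prod]
      simp only [Finset.univ_unique, Finset.sum_singleton, Fin.default_eq_zero, Fin.val_zero, pow_zero, one_mul]
      have e1 : cc (dl 0 a b) 0 = 1 := if_pos rfl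
      have e2 : cc (dl 1 a b) 0 = -1 := (if_neg hne.symm).trans (if_pos rfl)
      rw [e1, e2]
      have e3 : Qi.subtype (((1 : 𝓞 Qi) : 𝓞 Qi) : Qi) = 1 := by
        rw [show (((1 : 𝓞 Qi) : 𝓞 Qi) : Qi) = 1 from rfl, map_one]
      have e4 : Qi.subtype (((-1 : 𝓞 Qi) : 𝓞 Qi) : Qi) = -1 := by
        rw [show (((-1 : 𝓞 Qi) : 𝓞 Qi) : Qi) = -1 from rfl, map_neg, map_one]
      rw [e3, e4]
      ring
    · rintro l _ ⟨h1, h2⟩
      have e1 : ∀ j, cc l j = 0 := by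
        intro j
        rw [hcc]
        simp only
        rw [if_neg h1, if_neg h2]
      rw [Finset.sum_eq_zero fun j _ => by
        show v ^ (j : ℕ) * Qi.subtype (cc l j : Qi) = 0
        rw [e1 j, show (((0 : 𝓞 Qi) : 𝓞 Qi) : Qi) = 0 from rfl, map_zero, mul_zero], zero_mul]
    · exact fun h1 => absurd (Finset.mem_univ _) h1
    · exact fun h1 => absurd (Finset.mem_univ _) h1
  have hT1 : (1 : ℝ) ≤ (c * M) ^ 1 := by
    rw [pow_one]
    nlinarith
  have h5 := (hgen cc (fun l j φ => by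
    rw [hcc]
    simp only
    split_ifs
    · rw [show (((1 : 𝓞 Qi) : 𝓞 Qi) : Qi) = 1 from rfl, map_one, norm_one]
      exact hT1
    · rw [show (((-1 : 𝓞 Qi) : 𝓞 Qi) : Qi) = -1 from rfl, map_neg, map_one, norm_neg, norm_one]
      exact hT1
    · rw [show (((0 : 𝓞 Qi) : 𝓞 Qi) : Qi) = 0 from rfl, map_zero, norm_zero]
      linarith)).2
  have h6 := h5 (by
    rw [hpoly]
    show F.P 0 (fun _ => (t : ℂ)) a b - F.P 1 (fun _ => (t : ℂ)) a b = 0
    rw [hP, sub_self])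
  have h7 := h6 (fun i => if i = 0 then P else -P, tpi) ⟨tpi_ne, fun i => by
    have h8 := F.riemann _ htU i
    by_cases hi : i = 0
    · subst hi
      simp only [if_true]
      exact h8
    · have hi1 : i = 1 := by
        rcases Fin.exists_fin_two.1 ⟨i, rfl⟩ with h | h
        · exact absurd h hi
        · exact h
      subst hi1
      simp only [if_neg hi]
      rw [Matrix.transpose_neg, Matrix.mul_neg, Matrix.neg_mul, Matrix.neg_mul, neg_neg]
      rw [hP1] at h8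
      exact h8⟩
  rw [hpoly] at h7
  simp only [if_true, one_ne_zero, if_false, Matrix.neg_apply, sub_neg_eq_add] at h7
  apply hab
  have h9 : (2 : ℂ) * P a b = 0 := by
    linear_combination h7
  simpa using h9

theorem iso_const : Isometry (fun z : ℂ => (fun _ : Fin 2 => z)) := by
  refine Isometry.of_dist_eq fun x y => ?_
  exact dist_pi_const x y

/-- **The bounds for the dimensions are best possible.** -/
theorem sharp {N : ℕ} (hN : Even N) (hN0 : 0 < N) (a : Fin N → ℝ) (ha : StrictMono a)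
    (b : Fin N → Pool.Agent.Y890.SP.Qbar) (hb : ∀ j, algebraMap Pool.Agent.Y890.SP.Qbar ℂ (b j) = (a j : ℂ))
    (m : Fin (N + 1)) (w : ℕ → ℂ) :
    let F : SympFam (Fin 2) (fun _ : Fin 2 => N) :=
      lineFam (fun _ => hN) (fun _ => a) (fun _ => ha) (fun _ => b) (fun _ => hb) (fun _ => m)
    dimH (Exc F w) = 2 ∧ dimH {ξ | ξ ∈ Exc F w ∧ ∀ j, (ξ j).im = 0} = 1 := by
  intro F
  have h0 := symp_near F w
  rw [Fintype.card_fin] at h0
  have hmem : ∀ z ∈ Pool.Agent.Y118.HP.Dm a m, (fun _ : Fin 2 => z) ∈ Exc F w := fun z hz =>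
    diag_bad hN0 F w (fun t => rfl) z (fun _ => hz)
  constructor
  · refine le_antisymm (by simpa using h0.1) ?_
    have h1 : (fun z : ℂ => (fun _ : Fin 2 => z)) '' Pool.Agent.Y118.HP.Dm a m ⊆ Exc F w := by
      rintro _ ⟨z, hz, rfl⟩
      exact hmem z hz
    have h2 : dimH (Pool.Agent.Y118.HP.Dm a m) = 2 := by
      obtain ⟨t, ht⟩ := Pool.Agent.Y118.HP.exists_inGap ha m
      rw [Real.dimH_of_mem_nhds ((Pool.Agent.Y118.HP.isOpen_Dm a m).mem_nhds ht.mem_Dm), Complex.finrank_real_complex]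
      norm_num
    calc (2 : ℝ≥0∞) = dimH ((fun z : ℂ => (fun _ : Fin 2 => z)) '' Pool.Agent.Y118.HP.Dm a m) := by
          rw [iso_const.dimH_image, h2]
      _ ≤ dimH (Exc F w) := dimH_mono h1
  · refine le_antisymm (by simpa using h0.2) ?_
    obtain ⟨α, β, hαβ, hgap⟩ := exists_gap ha m
    have h1 : (fun s : ℝ => (fun _ : Fin 2 => (s : ℂ))) '' Icc α β ⊆ {ξ | ξ ∈ Exc F w ∧ ∀ j, (ξ j).im = 0} := by
      rintro _ ⟨s, hs, rfl⟩
      exact ⟨hmem s (hgap s hs).mem_Dm, fun _ => Complex.ofReal_im s⟩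
    have hiso : Isometry (fun s : ℝ => (fun _ : Fin 2 => (s : ℂ))) := iso_const.comp Complex.isometry_ofReal
    have h2 : dimH (Icc α β) = 1 := by
      rw [Real.dimH_of_mem_nhds (Icc_mem_nhds (a := α) (b := β) (x := (α + β) / 2) (by linarith) (by linarith))]
      simp
    calc (1 : ℝ≥0∞) = dimH ((fun s : ℝ => (fun _ : Fin 2 => (s : ℂ))) '' Icc α β) := by
          rw [hiso.dimH_image, h2]
      _ ≤ dimH {ξ | ξ ∈ Exc F w ∧ ∀ j, (ξ j).im = 0} := dimH_mono h1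

end Pool.Agent.Helper6K9.HC
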