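import Pool.Agent.Y890.SM.Inst
import Pool.Agent.Helper6K9.HC.Near

/-!
# Families with symplectic monodromy: points over number fields near a given point
-/

set_option autoImplicit false
set_option linter.unusedSectionVars false

open Filter Matrix NumberField
open scoped ENNReal

namespace Pool.Agent.Helper6K9.HC

open Pool.Agent.Y890.MV Pool.Agent.Y890.SM
open Pool.Agent.Y124 (Cov)

variable {X : Type} [Fintype X] [DecidableEq X] {ι : Type} [Fintype ι] [DecidableEq ι] {n : ι → ℕ}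

/-- the exceptional points lie on few hypersurfaces -/
theorem symp_cover [Nonempty X] (F : SympFam X n) (k : ℕ) (hk : 0 < k) (ε : ℝ) (hε : 0 < ε) :
    ∃ (D : ℕ) (C T₀ : ℝ), 0 ≤ C ∧ ∀ (K : Type) [Field K] [NumberField K], Module.finrank ℚ K ≤ k →
      ∀ (io : K →+* ℂ) (ξ : Fin k → ℂ) (T : ℝ), T₀ ≤ T →
        Cov D ⌊C * T ^ ε⌋₊ ((fun (e : X → K) j => io (e j)) '' F.Exceptional k K io ξ T) := by
  classical
  have hf : ∀ q, AnalyticOnNhd ℂ (F.f q) F.U := fun q => F.an q.1 q.2.1 q.2.2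
  obtain ⟨D, C, T₀, hC, hT₀, H⟩ := excT_cov F.conn F.isOpen F.nonempty hf F.tor (InnerM F.U k) (innerM_compact _ _)
    (innerM_sub _ hk) k (Fin k) k (k : ℝ) ε hε
  refine ⟨D, 2 * C, T₀, by positivity, fun K _ _ hK io ξ T hT0 => ?_⟩
  have h1 := (H K hK io ξ T hT0).union (H K hK io (fun a : Fin k => tpi ^ (a : ℕ)) T hT0)
  rw [← Set.image_union] at h1
  refine h1.mono le_rfl ?_ (Set.image_mono (F.exceptional_sub k hk K io ξ T))
  have h2 : (0 : ℝ) ≤ C * T ^ ε := by
    have : (0 : ℝ) < T := by linarith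
    positivity
  apply Nat.le_floor
  push_cast
  have h3 := Nat.floor_le h2
  linarith

/-- relations of smaller degree and height -/
theorem poly_ext {k k' : ℕ} (hkk : k ≤ k') {R : Type*} [CommRing R] (io : R →+* ℂ)
    (c : (Ix n → Fin (k + 1)) → Fin k → R) (w : ℕ → ℂ) (Y : ∀ i, Matrix (Fin (n i)) (Fin (n i)) ℂ)
    (c' : (Ix n → Fin (k' + 1)) → Fin k' → R)
    (h1 : ∀ l a, c' (fun q => Fin.castLE (by omega) (l q)) (Fin.castLE hkk a) = c l a)
    (h2 : ∀ l a, (¬ ∀ q, (l q : ℕ) ≤ k) → c' l a = 0) (h3 : ∀ l (a : Fin k'), ¬ (a : ℕ) < k → c' l a = 0) :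
    poly (fun l a => io (c' l a)) (fun a => w a) Y = poly (fun l a => io (c l a)) (fun a => w a) Y := by
  classical
  unfold poly
  symm
  refine Finset.sum_of_injOn (fun l q => Fin.castLE (by omega) (l q)) ?_ (fun _ _ => Finset.mem_coe.2 (Finset.mem_univ _))
    ?_ ?_
  · intro l _ l' _ h
    funext q
    have h4 := congrFun h q
    exact Fin.castLE_injective _ h4
  · intro l _ hl
    have h4 : ¬ ∀ q, (l q : ℕ) ≤ k := by
      intro h5
      apply hl
      refine ⟨fun q => ⟨l q, Nat.lt_succ_of_le (h5 q)⟩, Finset.mem_coe.2 (Finset.mem_univ _), ?_⟩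
      funext q
      rfl
    rw [Finset.sum_eq_zero fun a _ => by
      show w a * io (c' l a) = 0
      rw [h2 l a h4, map_zero, mul_zero], zero_mul]
  · intro l _
    congr 1
    · refine Finset.sum_of_injOn (Fin.castLE hkk) ?_ (fun _ _ => Finset.mem_coe.2 (Finset.mem_univ _)) ?_ ?_
      · exact fun _ _ _ _ h => Fin.castLE_injective _ h
      · intro a _ ha
        have h4 : ¬ (a : ℕ) < k := by
          intro h5
          apply ha
          exact ⟨⟨a, h5⟩, Finset.mem_coe.2 (Finset.mem_univ _), rfl⟩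
        show w a * io (c' (fun q => Fin.castLE (by omega) (l q)) a) = 0
        rw [h3 _ a h4, map_zero, mul_zero]
      · intro a _
        show w a * io (c l a) = w a * io (c' (fun q => Fin.castLE (by omega) (l q)) (Fin.castLE hkk a))
        rw [h1]

theorem generic_mono (F : SympFam X n) {k k' : ℕ} (hkk : k ≤ k') (K : Type) [Field K] [NumberField K]
    (io : K →+* ℂ) (w : ℕ → ℂ) {T : ℝ} (hT : 1 ≤ T) (x : X → ℂ)
    (h : F.Generic k' K io (fun a : Fin k' => w a) T x) : F.Generic k K io (fun a : Fin k => w a) T x := by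
  classical
  intro c hc
  set c' : (Ix n → Fin (k' + 1)) → Fin k' → 𝓞 K := fun l a =>
    if h : (∀ q, (l q : ℕ) ≤ k) ∧ (a : ℕ) < k then
      c (fun q => ⟨l q, Nat.lt_succ_of_le (h.1 q)⟩) ⟨a, h.2⟩ else 0 with hc'
  have h1 : ∀ l a, c' (fun q => Fin.castLE (by omega) (l q)) (Fin.castLE hkk a) = c l a := by
    intro l a
    rw [hc']
    simp only
    rw [dif_pos ⟨fun q => by
      have := (l q).2
      simp only [Fin.val_castLE]
      omega, by simp only [Fin.val_castLE]; exact a.2⟩]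
    rfl
  have h2 : ∀ l a, (¬ ∀ q, (l q : ℕ) ≤ k) → c' l a = 0 := by
    intro l a hl
    rw [hc']
    simp only
    rw [dif_neg fun h => hl h.1]
  have h3 : ∀ l (a : Fin k'), ¬ (a : ℕ) < k → c' l a = 0 := by
    intro l a ha
    rw [hc']
    simp only
    rw [dif_neg fun h => ha h.2]
  have hb : ∀ l a (φ : K →+* ℂ), ‖φ (c' l a : K)‖ ≤ T ^ k' := by
    intro l a φ
    have hTk : T ^ k ≤ T ^ k' := pow_le_pow_right₀ hT hkk
    rw [hc']
    simp only
    split_ifs with h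
    · exact (hc _ _ φ).trans hTk
    · have e0 : ((0 : 𝓞 K) : K) = 0 := rfl
      rw [e0, map_zero, norm_zero]
      positivity
  obtain ⟨h4, h5⟩ := h c' hb
  have e1 : ∀ (v : ℕ → ℂ) (Y : ∀ i, Matrix (Fin (n i)) (Fin (n i)) ℂ),
      poly (fun l a => io (c' l a : K)) (fun a : Fin k' => v a) Y =
      poly (fun l a => io (c l a : K)) (fun a : Fin k => v a) Y := fun v Y =>
    poly_ext hkk (io.comp (algebraMap (𝓞 K) K)) c v Y c' h1 h2 h3
  refine ⟨fun h6 Y hY => ?_, fun h6 p hp => ?_⟩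
  · rw [← e1 w] at h6 ⊢
    exact h4 h6 Y hY
  · have e2 := e1 (fun a => tpi ^ a) (fun i => F.P i x)
    have e3 := e1 (fun a => p.2 ^ a) p.1
    rw [← e3]
    exact h5 (e2.trans h6) p hp

/-- number fields in `ℂ` -/
abbrev NF : Type := {K : Subfield ℂ // NumberField K}

theorem nf_gen (K : NF) : ∃ α : ℂ, IsAlgebraic ℚ α ∧ α ∈ K.1 ∧ ∀ L : Subfield ℂ, α ∈ L → K.1 ≤ L := by
  obtain ⟨K, hK⟩ := K
  obtain ⟨α, hα⟩ := Field.exists_primitive_element ℚ K
  refine ⟨α, ?_, α.2, fun L hL => ?_⟩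
  · have h1 : IsAlgebraic ℚ α := Algebra.IsAlgebraic.isAlgebraic α
    exact h1.algHom (IsScalarTower.toAlgHom ℚ K ℂ)
  · -- the intermediate field of the elements of `L`
    set M : IntermediateField ℚ K := (L.comap K.subtype).toIntermediateField fun q => by
      rw [Subfield.mem_comap]
      have h1 : K.subtype (algebraMap ℚ K q) = (q : ℂ) := by simp
      rw [h1]
      exact SubfieldClass.ratCast_mem L q with hM
    have h1 : α ∈ M := by
      show K.subtype α ∈ L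
      exact hL
    have h2 : M = ⊤ := by
      rw [← top_le_iff, ← hα]
      exact IntermediateField.adjoin_simple_le_iff.2 h1
    intro x hx
    have h3 : (⟨x, hx⟩ : K) ∈ M := by
      rw [h2]
      exact IntermediateField.mem_top
    exact h3

instance nf_countable : Countable NF := by
  choose α h1 h2 h3 using nf_gen
  have hA : Set.Countable {x : ℂ | IsAlgebraic ℚ x} := Algebraic.countable ℚ ℂ
  have : Countable {x : ℂ | IsAlgebraic ℚ x} := hA.to_subtype
  refine Function.Injective.countable (f := fun K : NF => (⟨α K, h1 K⟩ : {x : ℂ | IsAlgebraic ℚ x})) ?_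
  intro K K' h
  have h4 : α K = α K' := congrArg Subtype.val h
  apply Subtype.ext
  apply le_antisymm
  · exact h3 K _ (by rw [h4]; exact h2 K')
  · exact h3 K' _ (by rw [← h4]; exact h2 K)

/-- `x` is the quotient of two integers of `K` all of whose conjugates have absolute value at most `T`. -/
def HeightLe (K : Type) [Field K] [NumberField K] (T : ℝ) (x : K) : Prop :=
  ∃ a b : 𝓞 K, b ≠ 0 ∧ (∀ φ : K →+* ℂ, ‖φ a‖ ≤ T ∧ ‖φ b‖ ≤ T) ∧ x = a / b

theorem heightLe_iff {K : Type} [Field K] [NumberField K] {T : ℝ} {x : K} : HeightLe K T x ↔ Y120.HtLe K T x :=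
  ⟨fun h => R437.Met.Tors.htLe_of h, fun h => R437.Met.Tors.isPt_of h⟩

/-- For every `k` and `C` and all large `T`, all points `e` over `K` with coordinates of height at most `T` and
`|ξ_j - e_j| ≤ C T ^ (-τ)` are generic: the relations of degree at most `k` and height at most `T ^ k` hold on the
torsor. -/
def NearGeneric (F : SympFam X n) (w : ℕ → ℂ) (K : Subfield ℂ) [NumberField K] (τ : ℝ) (ξ : X → ℂ) : Prop :=
  ∀ (k : ℕ) (C : ℝ), ∃ T₁ : ℝ, ∀ T : ℝ, T₁ ≤ T → ∀ e : X → K,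
    (∀ j, HeightLe K T (e j) ∧ ‖ξ j - e j‖ ≤ C * T ^ (-τ)) →
      F.Generic k K K.subtype (fun a : Fin k => w a) T (fun j => (e j : ℂ))

/-- the property for one field -/
def Nr (F : SympFam X n) (w : ℕ → ℂ) (K : Subfield ℂ) (hK : NumberField K) (ξ : X → ℂ) : Prop :=
  ∃ k₀ : ℕ, ∀ k : ℕ, k₀ ≤ k → ∀ τ : ℝ, 0 < τ → ∀ C : ℝ, ∃ T₁ : ℝ,
    ∀ T : ℝ, T₁ ≤ T → ∀ e : X → K, ((∀ j, Y120.HtLe K T (e j)) ∧
      ¬ F.Generic k K K.subtype (fun a : Fin k => w a) T (fun j => (e j : ℂ))) →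
      C * T ^ (-τ) < dist ξ (fun j => (e j : ℂ))

theorem nr_near (F : SympFam X n) (w : ℕ → ℂ) (K : Subfield ℂ) [hK : NumberField K] {ξ : X → ℂ}
    (h : Nr F w K hK ξ) (τ : ℝ) (hτ : 0 < τ) : NearGeneric F w K τ ξ := by
  intro k C
  obtain ⟨k₀, hk₀⟩ := h
  obtain ⟨T₁, hT₁⟩ := hk₀ (max k k₀) (le_max_right _ _) τ hτ |C|
  refine ⟨max T₁ 1, fun T hT e he => ?_⟩
  have hT1 : 1 ≤ T := (le_max_right _ _).trans hT
  refine generic_mono F (le_max_left k k₀) K K.subtype w hT1 _ ?_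
  by_contra hng
  have h2 := hT₁ T ((le_max_left _ _).trans hT) e ⟨fun j => heightLe_iff.1 (he j).1, hng⟩
  have h3 : dist ξ (fun j => (e j : ℂ)) ≤ |C| * T ^ (-τ) := by
    rw [dist_pi_le_iff (by positivity)]
    intro j
    rw [dist_eq_norm]
    exact (he j).2.trans (mul_le_mul_of_nonneg_right (le_abs_self C) (by positivity))
  linarith

/-- the exceptional set of all number fields and all exponents -/
def Exc (F : SympFam X n) (w : ℕ → ℂ) : Set (X → ℂ) :=
  {ξ | ξ ∈ F.U ∧ ¬ ∀ (K : Subfield ℂ) [NumberField K] (τ : ℝ), 0 < τ → NearGeneric F w K τ ξ}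

/-- the exceptional set for the number fields of degree at most `D` and the exponent `τ` -/
def ExcD (F : SympFam X n) (w : ℕ → ℂ) (D : ℕ) (τ : ℝ) : Set (X → ℂ) :=
  {ξ | ξ ∈ F.U ∧ ¬ ∀ (K : Subfield ℂ) [NumberField K], Module.finrank ℚ K ≤ D → NearGeneric F w K τ ξ}

/-- **Codimension two, all number fields and all exponents.** -/
theorem symp_near [Nonempty X] (F : SympFam X n) (w : ℕ → ℂ) :
    dimH (Exc F w) ≤ (2 * (Fintype.card X - 1) : ℕ) ∧
    dimH {ξ | ξ ∈ Exc F w ∧ ∀ j, (ξ j).im = 0} ≤ (Fintype.card X - 1 : ℕ) := by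
  classical
  have h1 := fun K : NF => near_codim (fun (e : X → K.1) j => (e j : ℂ)) F.U F.isOpen
      (fun k T e => letI := K.2; (∀ j, Y120.HtLe K.1 T (e j)) ∧
        ¬ F.Generic k K.1 K.1.subtype (fun a : Fin k => w a) T (fun j => (e j : ℂ)))
      (fun k T T' e hT1 hTT' hbad => letI := K.2; ⟨fun j => R437.Met.Tors.htLe_mono (hbad.1 j) hTT', fun hgen =>
        hbad.2 fun c' hc' => hgen c' fun l a φ => (hc' l a φ).trans (pow_le_pow_left₀ (by linarith) hTT' k)⟩)
      (letI := K.2; max (Module.finrank ℚ K.1) 1)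
      (fun k ε hk hε => by
        letI := K.2
        obtain ⟨D, C, T₀, hC, H⟩ := symp_cover F k (lt_of_lt_of_le one_pos ((le_max_right _ _).trans hk)) ε hε
        refine ⟨D, C, T₀, hC, fun T hT => ?_⟩
        refine (H K.1 ((le_max_left _ _).trans hk) K.1.subtype (fun a : Fin k => w a) T hT).mono le_rfl le_rfl ?_
        exact Set.image_mono fun e he => ⟨he.2.1, he.1, he.2.2⟩)
  constructor
  · have hsub : Exc F w ⊆ ⋃ K : NF, {ξ | ξ ∈ F.U ∧ ¬ Nr F w K.1 K.2 ξ} := by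
      rintro ξ ⟨hξ, hbad⟩
      by_contra hcon
      apply hbad
      intro K _ τ hτ
      refine nr_near F w K ?_ τ hτ
      by_contra hnr
      exact hcon (Set.mem_iUnion.2 ⟨⟨K, inferInstance⟩, hξ, hnr⟩)
    refine (dimH_mono hsub).trans ?_
    rw [dimH_iUnion]
    exact iSup_le fun K => (h1 K).1
  · have hsub : {ξ | ξ ∈ Exc F w ∧ ∀ j, (ξ j).im = 0} ⊆
        ⋃ K : NF, {ξ | ξ ∈ F.U ∧ (∀ j, (ξ j).im = 0) ∧ ¬ Nr F w K.1 K.2 ξ} := by
      rintro ξ ⟨⟨hξ, hbad⟩, hre⟩
      by_contra hcon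
      apply hbad
      intro K _ τ hτ
      refine nr_near F w K ?_ τ hτ
      by_contra hnr
      exact hcon (Set.mem_iUnion.2 ⟨⟨K, inferInstance⟩, hξ, hre, hnr⟩)
    refine (dimH_mono hsub).trans ?_
    rw [dimH_iUnion]
    exact iSup_le fun K => (h1 K).2

/-- **Number fields of bounded degree, large exponents.** -/
theorem symp_near' [Nonempty X] (F : SympFam X n) (w : ℕ → ℂ) (D : ℕ) (τ : ℝ) (hτ : 0 < τ) :
    dimH (ExcD F w D τ) ≤ ENNReal.ofReal (2 * D * ((Fintype.card X : ℝ) - 1) / τ) := by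
  classical
  have hX : (0 : ℝ) ≤ (Fintype.card X : ℝ) - 1 := by
    have h1 : 1 ≤ Fintype.card X := Fintype.card_pos
    have : (1 : ℝ) ≤ Fintype.card X := by exact_mod_cast h1
    linarith
  have h1 : ∀ K : NF, ∃ E : Set (X → ℂ), dimH E ≤ ENNReal.ofReal (2 * D * ((Fintype.card X : ℝ) - 1) / τ) ∧
      ∀ [NumberField K.1], Module.finrank ℚ K.1 ≤ D → ∀ ξ ∈ F.U, ξ ∉ E → ∃ k₀ : ℕ, ∀ k : ℕ, k₀ ≤ k →
        ∀ C : ℝ, ∃ T₁ : ℝ, ∀ T : ℝ, T₁ ≤ T → ∀ e : X → K.1,
        (∀ j, Y120.HtLe K.1 T (e j) ∧ ‖ξ j - (e j : ℂ)‖ ≤ C * T ^ (-τ)) →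
          ¬ ¬ F.Generic k K.1 K.1.subtype (fun a : Fin k => w a) T (fun j => (e j : ℂ)) := by
    rintro ⟨K, hK⟩
    by_cases hD : Module.finrank ℚ K ≤ D
    · obtain ⟨E, hE, h⟩ := R437.Met.Tors.near K K.subtype F.U F.isOpen
        (fun k T e => ¬ F.Generic k K K.subtype (fun a : Fin k => w a) T (fun j => (e j : ℂ)))
        (fun k T T' e hT1 hTT' hbad hgen => hbad fun c' hc' => hgen c' fun l a φ => (hc' l a φ).trans
          (pow_le_pow_left₀ (by linarith) hTT' k))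
        (max (Module.finrank ℚ K) 1)
        (fun k ε hk hε => by
          obtain ⟨D, C, T₀, hC, H⟩ := symp_cover F k (lt_of_lt_of_le one_pos ((le_max_right _ _).trans hk)) ε hε
          exact ⟨D, C, T₀, hC, fun T hT => H K ((le_max_left _ _).trans hk) K.subtype (fun a : Fin k => w a) T hT⟩)
        τ hτ
      refine ⟨E, hE.trans (ENNReal.ofReal_le_ofReal ?_), fun _ => h⟩
      have h2 : (Module.finrank ℚ K : ℝ) ≤ D := by exact_mod_cast hD
      gcongr
    · refine ⟨∅, by rw [dimH_empty]; exact bot_le, ?_⟩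
      intro _ h
      exact absurd h hD
  choose E hE h using h1
  have hsub : ExcD F w D τ ⊆ ⋃ K, E K := by
    rintro ξ ⟨hξ, hbad⟩
    by_contra hξE
    apply hbad
    intro K _ hK k C
    obtain ⟨k₀, hk₀⟩ := h ⟨K, inferInstance⟩ hK ξ hξ (fun hmem => hξE (Set.mem_iUnion.2 ⟨_, hmem⟩))
    obtain ⟨T₁, hT₁⟩ := hk₀ (max k k₀) (le_max_right _ _) C
    refine ⟨max T₁ 1, fun T hT e he => ?_⟩
    have hT1 : 1 ≤ T := (le_max_right _ _).trans hT
    refine generic_mono F (le_max_left k k₀) K K.subtype w hT1 _ ?_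
    exact not_not.1 (hT₁ T ((le_max_left _ _).trans hT) e fun j => ⟨heightLe_iff.1 (he j).1, (he j).2⟩)
  refine (dimH_mono hsub).trans ?_
  rw [dimH_iUnion]
  exact iSup_le hE

end Pool.Agent.Helper6K9.HC
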